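import Mathlib

set_option autoImplicit false

universe u v

namespace Pool.Agent.H709Exc

/-- The subgraph of `H` formed by the edges of colour `i`. -/
def colorClass {V : Type u} {C : Type v} (H : SimpleGraph V) (c : Sym2 V → C) (i : C) :
    SimpleGraph V where
  Adj x y := H.Adj x y ∧ c s(x, y) = i
  symm := ⟨fun x y h => ⟨h.1.symm, by rw [Sym2.eq_swap]; exact h.2⟩⟩
  loopless := ⟨fun x h => H.loopless.irrefl x h.1⟩

/-- `G` is a forest of stars: it has no path with three edges and no triangle. -/
def IsStarForest {V : Type u} (G : SimpleGraph V) : Prop :=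
  ∀ a b c d, G.Adj a b → G.Adj b c → G.Adj c d → a = c ∨ b = d

/-- Property (1): for every `n ≥ 1` some `G₁`-free graph `H` has the property that every
`n`-colouring of its edges has a monochromatic copy of `G₂`. -/
def FinArrow {k l : ℕ} (G₁ : SimpleGraph (Fin k)) (G₂ : SimpleGraph (Fin l)) : Prop :=
  ∀ n : ℕ, 1 ≤ n → ∃ (V : Type u) (H : SimpleGraph V), ¬ G₁.IsContained H ∧
    ∀ c : Sym2 V → Fin n, ∃ i, G₂.IsContained (colorClass H c i)

/-- Property (2): every `G₁`-free graph `H` (of any cardinality) has a colouring of its edges with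
countably many colours and without monochromatic copy of `G₂`. -/
def CountablyColourable {k l : ℕ} (G₁ : SimpleGraph (Fin k)) (G₂ : SimpleGraph (Fin l)) : Prop :=
  ∀ (V : Type u) (H : SimpleGraph V), ¬ G₁.IsContained H →
    ∃ c : Sym2 V → ℕ, ∀ i, ¬ G₂.IsContained (colorClass H c i)

/-- The pair `(G₁, G₂)` is exceptional. -/
def Exceptional {k l : ℕ} (G₁ : SimpleGraph (Fin k)) (G₂ : SimpleGraph (Fin l)) : Prop :=
  FinArrow.{u} G₁ G₂ ∧ CountablyColourable.{u} G₁ G₂

theorem IsStarForest.of_contained {V W : Type*} {G : SimpleGraph V} {H : SimpleGraph W}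
    (h : G.IsContained H) (hH : IsStarForest H) : IsStarForest G := by
  obtain ⟨f⟩ := h
  intro a b c d h1 h2 h3
  rcases hH _ _ _ _ (f.toHom.map_adj h1) (f.toHom.map_adj h2) (f.toHom.map_adj h3) with h | h
  · exact Or.inl (f.injective h)
  · exact Or.inr (f.injective h)

/-- Every vertex has at most one neighbour: `G` is a matching. -/
def IsMatch {V : Type u} (G : SimpleGraph V) : Prop := ∀ a b c, G.Adj a b → G.Adj a c → b = c

/-- Any two edges share a vertex. -/
def IsInter {V : Type u} (G : SimpleGraph V) : Prop :=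
  ∀ a b c d, G.Adj a b → G.Adj c d → a = c ∨ a = d ∨ b = c ∨ b = d

end Pool.Agent.H709Exc
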