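import Mathlib
import Pool.Agent.H709Exc.Defs

set_option autoImplicit false

universe u v

namespace Pool.Agent.H709Exc

-- put your auxiliary lemmas here (names starting with the job's theorem name), then the theorem

theorem acyclic_of_star {k : ℕ} (G : SimpleGraph (Fin k)) (h : IsStarForest G) :
    G.IsAcyclic := by
  intro v p hp
  have h3 : 3 ≤ p.length := hp.three_le_length
  rcases h _ _ _ _ (p.adj_getVert_succ (i := 0) (by omega)) (p.adj_getVert_succ (i := 1) (by omega))
    (p.adj_getVert_succ (i := 2) (by omega)) with h1 | h1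
  · have := hp.getVert_injOn' (x₁ := 0) (x₂ := 2) (by simp) (by
      show 2 ≤ p.length - 1
      omega) h1
    omega
  · have := hp.getVert_injOn (x₁ := 1) (x₂ := 3) (by
      show 1 ≤ 1 ∧ 1 ≤ p.length
      omega) (by
      show 1 ≤ 3 ∧ 3 ≤ p.length
      omega) h1
    omega


end Pool.Agent.H709Exc
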