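import Mathlib
import Pool.Agent.H709Exc.Defs

set_option autoImplicit false

universe u v

namespace Pool.Agent.H709Exc

-- put your auxiliary lemmas here (names starting with the job's theorem name), then the theorem

theorem big_split_ctr {k : ℕ} (G₁ : SimpleGraph (Fin k)) (hs : IsStarForest G₁) :
    ∃ ctr : Fin k → Fin k, ∀ u v, G₁.Adj u v →
      (ctr u = u ∧ ctr v = u) ∨ (ctr v = v ∧ ctr u = v) := by
  classical
  let D : Fin k → Prop := fun v => ∃ a b, a ≠ b ∧ G₁.Adj v a ∧ G₁.Adj v b
  let ctr : Fin k → Fin k := fun v =>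
    if D v then v else if h : ∃ w, G₁.Adj v w then
      (if D (Classical.choose h) then Classical.choose h else min v (Classical.choose h)) else v
  have hD : ∀ u v, G₁.Adj u v → D u → D v → False := by
    intro u v huv hu hv
    obtain ⟨a, b, hab, ha, hb⟩ := hu
    obtain ⟨a', b', hab', ha', hb'⟩ := hv
    have h1 : ∃ x, x ≠ v ∧ G₁.Adj u x := by
      by_cases h : a = v
      · exact ⟨b, fun hb2 => hab (h.trans hb2.symm), hb⟩
      · exact ⟨a, h, ha⟩
    have h2 : ∃ x, x ≠ u ∧ G₁.Adj v x := by
      by_cases h : a' = u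
      · exact ⟨b', fun hb2 => hab' (h.trans hb2.symm), hb'⟩
      · exact ⟨a', h, ha'⟩
    obtain ⟨x, hx, hux⟩ := h1
    obtain ⟨y, hy, hvy⟩ := h2
    rcases hs x u v y hux.symm huv hvy with h | h
    · exact hx h
    · exact hy h.symm
  have huniq : ∀ v, ¬ D v → ∀ w w', G₁.Adj v w → G₁.Adj v w' → w = w' := by
    intro v hv w w' h1 h2
    by_contra hne
    exact hv ⟨w, w', hne, h1, h2⟩
  have c1 : ∀ v, D v → ctr v = v := by
    intro v hv
    simp only [ctr, if_pos hv]
  have c2 : ∀ v w, ¬ D v → G₁.Adj v w → ctr v = if D w then w else min v w := by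
    intro v w hv hw
    have h : ∃ w, G₁.Adj v w := ⟨w, hw⟩
    have he : Classical.choose h = w := huniq v hv _ _ (Classical.choose_spec h) hw
    simp only [ctr, if_neg hv, dif_pos h]
    rw [he]
  refine ⟨ctr, ?_⟩
  intro u v huv
  by_cases hu : D u
  · have hv : ¬ D v := fun hv => hD u v huv hu hv
    left
    refine ⟨c1 u hu, ?_⟩
    rw [c2 v u hv huv.symm, if_pos hu]
  · by_cases hv : D v
    · right
      refine ⟨c1 v hv, ?_⟩
      rw [c2 u v hu huv, if_pos hv]
    · have e1 := c2 u v hu huv
      have e2 := c2 v u hv huv.symm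
      rw [if_neg hv] at e1
      rw [if_neg hu] at e2
      rcases le_total u v with h | h
      · left
        rw [e1, e2, min_eq_left h, min_eq_right h]
        exact ⟨rfl, rfl⟩
      · right
        rw [e1, e2, min_eq_right h, min_eq_left h]
        exact ⟨rfl, rfl⟩

theorem big_split_greedy {k : ℕ} {V : Type u} (H : SimpleGraph V) (e : Fin k → V)
    (he : Function.Injective e) (hbig : ∀ i, ((k * k : ℕ) : ℕ∞) < {w | H.Adj (e i) w}.encard)
    (ctr : Fin k → Fin k) (T : Finset (Fin k)) :
    ∃ f : Fin k → V, Function.Injective f ∧ (∀ v ∉ T, f v = e v) ∧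
      (∀ v ∈ T, H.Adj (e (ctr v)) (f v)) := by
  classical
  induction T using Finset.induction_on with
  | empty => exact ⟨e, he, fun _ _ => rfl, fun v hv => absurd hv (Finset.notMem_empty v)⟩
  | insert v T hvT ih =>
    obtain ⟨f, hf, h1, h2⟩ := ih
    have hk : 1 ≤ k := by
      have := v.2
      omega
    have hex : ∃ w, H.Adj (e (ctr v)) w ∧ w ∉ Finset.univ.image f := by
      by_contra hcon
      push Not at hcon
      have hsub : {w | H.Adj (e (ctr v)) w} ⊆ ((Finset.univ.image f : Finset V) : Set V) := by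
        intro w hw
        exact Finset.mem_coe.2 (hcon w hw)
      have hle := Set.encard_le_encard hsub
      rw [Set.encard_coe_eq_coe_finsetCard] at hle
      have hc : (Finset.univ.image f).card ≤ k := by
        refine Finset.card_image_le.trans ?_
        simp
      have hc2 : ((Finset.univ.image f).card : ℕ∞) ≤ ((k * k : ℕ) : ℕ∞) := by
        exact_mod_cast hc.trans (Nat.le_mul_of_pos_left k hk)
      exact absurd (hbig (ctr v)) (not_lt.2 (hle.trans hc2))
    obtain ⟨w, hw1, hw2⟩ := hex
    refine ⟨Function.update f v w, ?_, ?_, ?_⟩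
    · intro x y hxy
      by_cases hx : x = v
      · by_cases hy : y = v
        · rw [hx, hy]
        · exfalso
          rw [hx, Function.update_self, Function.update_of_ne hy] at hxy
          exact hw2 (Finset.mem_image.2 ⟨y, Finset.mem_univ _, hxy.symm⟩)
      · by_cases hy : y = v
        · exfalso
          rw [hy, Function.update_self, Function.update_of_ne hx] at hxy
          exact hw2 (Finset.mem_image.2 ⟨x, Finset.mem_univ _, hxy⟩)
        · rw [Function.update_of_ne hx, Function.update_of_ne hy] at hxy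
          exact hf hxy
    · intro x hx
      have hxv : x ≠ v := fun h => hx (h ▸ Finset.mem_insert_self v T)
      rw [Function.update_of_ne hxv]
      exact h1 x (fun h => hx (Finset.mem_insert_of_mem h))
    · intro x hx
      by_cases hxv : x = v
      · rw [hxv, Function.update_self]
        exact hw1
      · rw [Function.update_of_ne hxv]
        exact h2 x ((Finset.mem_insert.1 hx).resolve_left hxv)

theorem big_split {k : ℕ} (G₁ : SimpleGraph (Fin k)) (hs : IsStarForest G₁) {V : Type u}
    (H : SimpleGraph V) (hfree : ¬ G₁.IsContained H) :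
    ∃ B : Finset V, B.card ≤ k ∧ ∀ v ∉ B, {w | H.Adj v w}.encard ≤ (k * k : ℕ) := by
  classical
  by_cases hB : {v | ((k * k : ℕ) : ℕ∞) < {w | H.Adj v w}.encard}.encard ≤ (k : ℕ∞)
  · have hfin : {v | ((k * k : ℕ) : ℕ∞) < {w | H.Adj v w}.encard}.Finite :=
      Set.finite_of_encard_le_coe hB
    refine ⟨hfin.toFinset, ?_, ?_⟩
    · have : ((hfin.toFinset.card : ℕ) : ℕ∞) ≤ (k : ℕ∞) := by
        rw [← Set.encard_coe_eq_coe_finsetCard, hfin.coe_toFinset]
        exact hB
      exact_mod_cast this
    · intro v hv
      by_contra hcon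
      apply hv
      rw [Set.Finite.mem_toFinset]
      exact not_le.1 hcon
  · exfalso
    apply hfree
    have hle : (k : ℕ∞) ≤ {v | ((k * k : ℕ) : ℕ∞) < {w | H.Adj v w}.encard}.encard :=
      (not_le.1 hB).le
    obtain ⟨t, hts, htc⟩ := Set.exists_subset_encard_eq hle
    have htf : t.Finite := Set.finite_of_encard_eq_coe htc
    have hcard : htf.toFinset.card = k := by
      have : ((htf.toFinset.card : ℕ) : ℕ∞) = (k : ℕ∞) := by
        rw [← Set.encard_coe_eq_coe_finsetCard, htf.coe_toFinset]
        exact htc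
      exact_mod_cast this
    let eq := htf.toFinset.equivFinOfCardEq hcard
    let e : Fin k → V := fun i => (eq.symm i : V)
    have he : Function.Injective e := fun i j h => eq.symm.injective (Subtype.ext h)
    have hbig : ∀ i, ((k * k : ℕ) : ℕ∞) < {w | H.Adj (e i) w}.encard := by
      intro i
      have h1 : (eq.symm i : V) ∈ t := htf.mem_toFinset.1 (eq.symm i).2
      exact hts h1
    obtain ⟨ctr, hctr⟩ := big_split_ctr G₁ hs
    obtain ⟨f, hf, h1, h2⟩ := big_split_greedy H e he hbig ctr
      (Finset.univ.filter (fun v => ctr v ≠ v))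
    have key : ∀ u v, G₁.Adj u v → ctr u = u → ctr v = u → H.Adj (f u) (f v) := by
      intro u v huv hu hv
      have e1 : f u = e u := h1 u (by simp [hu])
      have hne : ctr v ≠ v := by
        rw [hv]; exact huv.ne
      have e2 := h2 v (by simp [hne])
      rw [hv] at e2
      rw [e1]
      exact e2
    refine ⟨⟨⟨f, ?_⟩, hf⟩⟩
    intro u v huv
    rcases hctr u v huv with ⟨hu, hv⟩ | ⟨hv, hu⟩
    · exact key u v huv hu hv
    · exact (key v u huv.symm hv hu).symm


end Pool.Agent.H709Exc
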