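import Mathlib
import Pool.Agent.H709Exc.Defs

set_option autoImplicit false

universe u v

namespace Pool.Agent.H709Exc

-- put your auxiliary lemmas here (names starting with the job's theorem name), then the theorem

theorem bip_common {k : ℕ} (G₁ : SimpleGraph (Fin k)) (h2 : G₁.Colorable 2) {V : Type u}
    (H : SimpleGraph V) (hfree : ¬ G₁.IsContained H) (S : Finset V) (hS : S.card = k) :
    {w | ∀ v ∈ S, H.Adj v w}.Finite := by
  classical
  by_contra hinf
  have hinf' : {w | ∀ v ∈ S, H.Adj v w}.Infinite := hinf
  apply hfree
  obtain ⟨col⟩ := h2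
  let e0 : Fin k ≃ S := (S.equivFinOfCardEq hS).symm
  let e1 : ℕ ↪ {w | ∀ v ∈ S, H.Adj v w} := hinf'.natEmbedding
  let f : Fin k → V := fun a => if col a = 0 then ((e0 a : S) : V) else ((e1 a.val : _) : V)
  have hadj : ∀ a b : Fin k, H.Adj ((e0 a : S) : V) ((e1 b.val : _) : V) := fun a b =>
    (e1 b.val).2 _ (e0 a).2
  refine ⟨⟨⟨f, ?_⟩, ?_⟩⟩
  · intro a b hab
    have hc : col a ≠ col b := col.valid hab
    show H.Adj (f a) (f b)
    by_cases ha : col a = 0
    · have hb : col b ≠ 0 := fun h => hc (ha.trans h.symm)
      simp only [f, if_pos ha, if_neg hb]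
      exact hadj a b
    · by_cases hb : col b = 0
      · simp only [f, if_neg ha, if_pos hb]
        exact (hadj b a).symm
      · exfalso
        apply hc
        have h1 : (col a).val < 2 := (col a).isLt
        have h2 : (col b).val < 2 := (col b).isLt
        have h3 : (col a).val ≠ 0 := fun h => ha (Fin.ext h)
        have h4 : (col b).val ≠ 0 := fun h => hb (Fin.ext h)
        exact Fin.ext (by omega)
  · intro a b hab
    have hab' : f a = f b := hab
    by_cases ha : col a = 0
    · by_cases hb : col b = 0
      · simp only [f, if_pos ha, if_pos hb] at hab'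
        exact e0.injective (Subtype.ext hab')
      · exfalso
        simp only [f, if_pos ha, if_neg hb] at hab'
        exact (hadj a b).ne hab'
    · by_cases hb : col b = 0
      · exfalso
        simp only [f, if_neg ha, if_pos hb] at hab'
        exact (hadj b a).ne hab'.symm
      · simp only [f, if_neg ha, if_neg hb] at hab'
        exact Fin.ext (e1.injective (Subtype.ext hab'))


end Pool.Agent.H709Exc
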