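import Mathlib
import Pool.Agent.H709Exc.Defs

set_option autoImplicit false

universe u v

namespace Pool.Agent.H709Exc

-- put your auxiliary lemmas here (names starting with the job's theorem name), then the theorem

theorem bip_mono {l : ℕ} (G₂ : SimpleGraph (Fin l)) (h2 : G₂.Colorable 2) :
    ∃ (V : Type u) (H : SimpleGraph V), H.Colorable 2 ∧
      ∀ c : Sym2 V → ℕ, ∃ i, G₂.IsContained (colorClass H c i) := by
  classical
  let A : Type u := ULift.{u} (Set ℕ)
  let B : Type u := Set (A → ℕ)
  refine ⟨A ⊕ B, completeBipartiteGraph A B, ?_, ?_⟩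
  · simpa using (SimpleGraph.CompleteBipartiteGraph.bicoloring A B).colorable
  intro c
  -- the map to the product
  let Φ : B → (A → ℕ) := fun b a => c s(Sum.inl a, Sum.inr b)
  have hcard : Cardinal.mk (A → ℕ) < Cardinal.mk B := by
    show Cardinal.mk (A → ℕ) < Cardinal.mk (Set (A → ℕ))
    rw [Cardinal.mk_set]
    exact Cardinal.cantor _
  have hinf : Cardinal.aleph0 ≤ Cardinal.mk (A → ℕ) := by
    haveI : Nonempty A := ⟨ULift.up ∅⟩
    haveI : Infinite (A → ℕ) := inferInstance
    exact Cardinal.aleph0_le_mk _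
  obtain ⟨g, hg⟩ := Cardinal.infinite_pigeonhole_card_lt Φ hcard (hinf.trans hcard.le)
  have hB' : Infinite (Φ ⁻¹' {g}) := Cardinal.infinite_iff.2 (hinf.trans hg.le)
  -- an infinite fibre of g
  have hA : ∃ i : ℕ, Set.Infinite (g ⁻¹' {i}) := by
    by_contra hcon
    simp only [not_exists, Set.not_infinite] at hcon
    have h1 : (⋃ i : ℕ, g ⁻¹' {i}) = (Set.univ : Set A) := by
      ext a
      simp
    have h2 : (Set.univ : Set A).Countable := by
      rw [← h1]
      exact Set.countable_iUnion fun i => (hcon i).countable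
    have h3 : Countable A := Set.countable_univ_iff.1 h2
    obtain ⟨f, hf⟩ := h3.exists_injective_nat
    exact Function.cantor_injective (fun s : Set ℕ => f (ULift.up s))
      (fun s t hst => by simpa using congrArg ULift.down (hf hst))
  obtain ⟨i, hi⟩ := hA
  have hA' : Infinite (g ⁻¹' {i}) := hi.to_subtype
  obtain ⟨C⟩ := h2
  let ea : Fin l ↪ (g ⁻¹' {i}) := Fin.valEmbedding.trans (Infinite.natEmbedding _)
  let eb : Fin l ↪ (Φ ⁻¹' {g}) := Fin.valEmbedding.trans (Infinite.natEmbedding _)
  let f : Fin l → A ⊕ B := fun v => if C v = 0 then Sum.inl (ea v).1 else Sum.inr (eb v).1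
  have hcol : ∀ v w, c s(Sum.inl (ea v).1, Sum.inr (eb w).1) = i := by
    intro v w
    have h1 : Φ (eb w).1 = g := (eb w).2
    have h3 : g (ea v).1 = i := (ea v).2
    have h4 : Φ (eb w).1 (ea v).1 = i := by rw [h1, h3]
    exact h4
  refine ⟨i, ⟨⟨⟨f, ?_⟩, ?_⟩⟩⟩
  · intro v w hvw
    have hne : C v ≠ C w := C.valid hvw
    show (completeBipartiteGraph A B).Adj (f v) (f w) ∧ c s(f v, f w) = i
    by_cases hv : C v = 0
    · have hw : C w ≠ 0 := fun h => hne (hv.trans h.symm)
      have e1 : f v = Sum.inl (ea v).1 := if_pos hv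
      have e2 : f w = Sum.inr (eb w).1 := if_neg hw
      rw [e1, e2]
      refine ⟨by simp, hcol v w⟩
    · have hw : C w = 0 := by
        have h5 := C v
        omega
      have e1 : f v = Sum.inr (eb v).1 := if_neg hv
      have e2 : f w = Sum.inl (ea w).1 := if_pos hw
      rw [e1, e2, Sym2.eq_swap]
      refine ⟨by simp, hcol w v⟩
  · intro v w hvw
    have hvw' : f v = f w := hvw
    simp only [f] at hvw'
    split_ifs at hvw' with h1 h3 h3
    · exact ea.injective (Subtype.ext (Sum.inl_injective hvw'))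
    · exact eb.injective (Subtype.ext (Sum.inr_injective hvw'))


end Pool.Agent.H709Exc
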