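import Mathlib
import Pool.Agent.H709Exc.Defs

set_option autoImplicit false

universe u v

namespace Pool.Agent.H709Exc

-- put your auxiliary lemmas here (names starting with the job's theorem name), then the theorem

theorem cent_deg_star {k : ℕ} (G₁ : SimpleGraph (Fin k)) (hs : IsStarForest G₁) (hi : IsInter G₁)
    (z0 : Fin k) : ∃ z : Fin k, ∀ a b, G₁.Adj a b → a = z ∨ b = z := by
  by_cases hE : ∃ x y, G₁.Adj x y
  · obtain ⟨x, y, hxy⟩ := hE
    by_cases h2 : ∃ z p q, G₁.Adj z p ∧ G₁.Adj z q ∧ p ≠ q
    · obtain ⟨z, p, q, hp, hq, hpq⟩ := h2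
      refine ⟨z, fun a b hab => ?_⟩
      by_contra hcon
      push Not at hcon
      have hpa : p = a ∨ p = b := by
        rcases hi z p a b hp hab with h | h | h | h
        · exact absurd h.symm hcon.1
        · exact absurd h.symm hcon.2
        · exact Or.inl h
        · exact Or.inr h
      have hqa : q = a ∨ q = b := by
        rcases hi z q a b hq hab with h | h | h | h
        · exact absurd h.symm hcon.1
        · exact absurd h.symm hcon.2
        · exact Or.inl h
        · exact Or.inr h
      have hpq' : G₁.Adj p q := by
        rcases hpa with h | h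
        · rcases hqa with h' | h'
          · exact absurd (h.trans h'.symm) hpq
          · rw [h, h']; exact hab
        · rcases hqa with h' | h'
          · rw [h, h']; exact hab.symm
          · exact absurd (h.trans h'.symm) hpq
      rcases hs z p q z hp hpq' hq.symm with h | h
      · exact G₁.ne_of_adj hq h
      · exact G₁.ne_of_adj hp h.symm
    · push Not at h2
      refine ⟨x, fun a b hab => ?_⟩
      rcases hi x y a b hxy hab with h | h | h | h
      · exact Or.inl h.symm
      · exact Or.inr h.symm
      · right
        subst h
        exact h2 y b x hab hxy.symm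
      · left
        subst h
        exact h2 y a x hab.symm hxy.symm
  · refine ⟨z0, fun a b hab => absurd ⟨a, b, hab⟩ hE⟩

theorem cent_deg {k : ℕ} (G₁ : SimpleGraph (Fin k)) (hs : IsStarForest G₁) (hi : IsInter G₁)
    {V : Type u} (H : SimpleGraph V) (hfree : ¬ G₁.IsContained H) :
    ∀ v, {w | H.Adj v w}.encard ≤ (k : ℕ) := by
  intro v
  by_contra hcon
  push Not at hcon
  apply hfree
  obtain ⟨t, hts, htk⟩ := Set.exists_subset_encard_eq hcon.le
  have hcard : Nat.card t = k := by
    rw [Nat.card_coe_set_eq, Set.ncard, htk]
    simp
  rcases Nat.eq_zero_or_pos k with hk | hk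
  · subst hk
    exact ⟨⟨⟨fun x => x.elim0, fun {a} => a.elim0⟩, fun a => a.elim0⟩⟩
  · have hfin : Finite t := Nat.finite_of_card_ne_zero (by omega)
    let e : t ≃ Fin k := Finite.equivFinOfCardEq hcard
    obtain ⟨z, hz⟩ := cent_deg_star G₁ hs hi ⟨0, hk⟩
    classical
    let f : Fin k → V := fun u => if u = z then v else (e.symm u : V)
    have hadj : ∀ u : Fin k, H.Adj v (e.symm u : V) := fun u => hts (e.symm u).2
    refine ⟨⟨⟨f, fun {a b} hab => ?_⟩, ?_⟩⟩
    · have hne : a ≠ b := G₁.ne_of_adj hab
      rcases hz a b hab with h | h
      · have hb : b ≠ z := fun hb => hne (h.trans hb.symm)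
        simp only [f, if_pos h, if_neg hb]
        exact hadj b
      · have ha : a ≠ z := fun ha => hne (ha.trans h.symm)
        simp only [f, if_pos h, if_neg ha]
        exact (hadj a).symm
    · intro a b hab
      have hab' : f a = f b := hab
      simp only [f] at hab'
      by_cases ha : a = z
      · by_cases hb : b = z
        · exact ha.trans hb.symm
        · rw [if_pos ha, if_neg hb] at hab'
          exact absurd hab' (H.ne_of_adj (hadj b))
      · by_cases hb : b = z
        · rw [if_neg ha, if_pos hb] at hab'
          exact absurd hab'.symm (H.ne_of_adj (hadj a))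
        · rw [if_neg ha, if_neg hb] at hab'
          exact e.symm.injective (Subtype.ext hab')


end Pool.Agent.H709Exc
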