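import Mathlib
import Pool.Agent.H709Exc.Defs

set_option autoImplicit false

universe u v

namespace Pool.Agent.H709Exc

-- put your auxiliary lemmas here (names starting with the job's theorem name), then the theorem

theorem cent_mono_center {l : ℕ} (G₂ : SimpleGraph (Fin l)) (hs : IsStarForest G₂)
    (hi : IsInter G₂) (z0 : Fin l) : ∃ z : Fin l, ∀ a b, G₂.Adj a b → a = z ∨ b = z := by
  by_cases h0 : ∃ a b, G₂.Adj a b
  · obtain ⟨a, b, hab⟩ := h0
    by_cases h1 : ∀ c d, G₂.Adj c d → c = a ∨ d = a
    · exact ⟨a, h1⟩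
    · obtain ⟨c, h1⟩ := not_forall.1 h1
      obtain ⟨d, h1⟩ := not_forall.1 h1
      obtain ⟨hcd, h1⟩ := Classical.not_imp.1 h1
      obtain ⟨hca, hda⟩ := not_or.1 h1
      have h2 : ∃ d', G₂.Adj b d' ∧ d' ≠ a := by
        rcases hi a b c d hab hcd with h | h | h | h
        · exact absurd h.symm hca
        · exact absurd h.symm hda
        · subst h; exact ⟨d, hcd, hda⟩
        · subst h; exact ⟨c, hcd.symm, hca⟩
      obtain ⟨d', hbd, hd'⟩ := h2
      refine ⟨b, fun e f hef => ?_⟩
      by_contra hcon
      obtain ⟨heb, hfb⟩ := not_or.1 hcon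
      have m1 : e = a ∨ f = a := by
        rcases hi e f a b hef hab with h | h | h | h
        · exact Or.inl h
        · exact absurd h heb
        · exact Or.inr h
        · exact absurd h hfb
      have m2 : e = d' ∨ f = d' := by
        rcases hi e f b d' hef hbd with h | h | h | h
        · exact absurd h heb
        · exact Or.inl h
        · exact absurd h hfb
        · exact Or.inr h
      have had : G₂.Adj d' a := by
        rcases m1 with h | h <;> rcases m2 with h' | h'
        · exact absurd (h'.symm.trans h) hd'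
        · rw [h, h'] at hef; exact hef.symm
        · rw [h, h'] at hef; exact hef
        · exact absurd (h'.symm.trans h) hd'
      rcases hs a b d' a hab hbd had with h | h
      · exact hd' h.symm
      · exact hab.ne h.symm
  · exact ⟨z0, fun a b hab => absurd ⟨a, b, hab⟩ h0⟩

/-- the star with centre `none` -/
def cent_mono_star (κ : Type u) : SimpleGraph (Option κ) where
  Adj x y := (x = none ∧ y ≠ none) ∨ (x ≠ none ∧ y = none)
  symm := ⟨fun x y h => h.elim (fun h => Or.inr ⟨h.2, h.1⟩) (fun h => Or.inl ⟨h.2, h.1⟩)⟩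
  loopless := ⟨fun x h => h.elim (fun h => h.2 h.1) (fun h => h.1 h.2)⟩

theorem cent_mono_star_inter (κ : Type u) : IsInter (cent_mono_star κ) := by
  intro a b c d h1 h2
  rcases h1 with h1 | h1 <;> rcases h2 with h2 | h2
  · exact Or.inl (h1.1.trans h2.1.symm)
  · exact Or.inr (Or.inl (h1.1.trans h2.2.symm))
  · exact Or.inr (Or.inr (Or.inl (h1.2.trans h2.1.symm)))
  · exact Or.inr (Or.inr (Or.inr (h1.2.trans h2.2.symm)))

theorem cent_mono_fibre (g : ULift.{u} (Set ℕ) → ℕ) : ∃ i, {x | g x = i}.Infinite := by
  by_contra hcon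
  have hfin : ∀ i, {x | g x = i}.Finite := fun i => by
    by_contra h
    exact hcon ⟨i, h⟩
  have hc : (⋃ i : ℕ, {x | g x = i}).Countable := Set.countable_iUnion (fun i => (hfin i).countable)
  have hu : (⋃ i : ℕ, {x | g x = i}) = Set.univ := by
    ext x
    simp
  rw [hu, Set.countable_univ_iff] at hc
  obtain ⟨f, hf⟩ := hc.exists_injective_nat
  exact Function.cantor_injective (fun s : Set ℕ => f (ULift.up s))
    (fun s t hst => ULift.up_injective (hf hst))

theorem cent_mono {l : ℕ} (G₂ : SimpleGraph (Fin l)) (hs : IsStarForest G₂) (hi : IsInter G₂) :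
    ∃ (V : Type u) (H : SimpleGraph V), IsInter H ∧
      ∀ c : Sym2 V → ℕ, ∃ i, G₂.IsContained (colorClass H c i) := by
  classical
  rcases Nat.eq_zero_or_pos l with hl | hl
  · subst hl
    refine ⟨PUnit, ⊥, ?_, ?_⟩
    · intro a b c d h1 _
      exact absurd h1 (by simp)
    · intro c
      refine ⟨0, ⟨⟨⟨fun v => v.elim0, fun {a} => a.elim0⟩, fun a => a.elim0⟩⟩⟩
  · obtain ⟨z, hz⟩ := cent_mono_center G₂ hs hi ⟨0, hl⟩
    refine ⟨Option (ULift.{u} (Set ℕ)), cent_mono_star _, cent_mono_star_inter _, ?_⟩
    intro c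
    obtain ⟨i, hinf⟩ := cent_mono_fibre (fun x => c s(none, some x))
    refine ⟨i, ?_⟩
    have hemb := hinf.natEmbedding
    have he : ∀ v : Fin l, c s(none, some ((hemb v.val : ULift.{u} (Set ℕ)))) = i :=
      fun v => (hemb v.val).2
    refine ⟨⟨⟨fun v => if v = z then none else some (hemb v.val : ULift.{u} (Set ℕ)), ?_⟩, ?_⟩⟩
    · intro a b hab
      rcases hz a b hab with h | h
      · have hb : b ≠ z := fun hb => hab.ne (h.trans hb.symm)
        show (cent_mono_star _).Adj _ _ ∧ _
        rw [if_pos h, if_neg hb]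
        exact ⟨Or.inl ⟨rfl, Option.some_ne_none _⟩, he b⟩
      · have ha : a ≠ z := fun ha => hab.ne (ha.trans h.symm)
        show (cent_mono_star _).Adj _ _ ∧ _
        rw [if_pos h, if_neg ha]
        refine ⟨Or.inr ⟨Option.some_ne_none _, rfl⟩, ?_⟩
        rw [Sym2.eq_swap]
        exact he a
    · intro a b hab
      have hab' : (if a = z then none else some (hemb a.val : ULift.{u} (Set ℕ))) =
        (if b = z then none else some (hemb b.val : ULift.{u} (Set ℕ))) := hab
      by_cases ha : a = z
      · by_cases hb : b = z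
        · rw [ha, hb]
        · rw [if_pos ha, if_neg hb] at hab'
          exact absurd hab'.symm (Option.some_ne_none _)
      · by_cases hb : b = z
        · rw [if_neg ha, if_pos hb] at hab'
          exact absurd hab' (Option.some_ne_none _)
        · rw [if_neg ha, if_neg hb] at hab'
          have h1 := Option.some_injective _ hab'
          have h2 := hemb.injective (Subtype.ext h1)
          exact Fin.ext h2


end Pool.Agent.H709Exc
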