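import Mathlib
import Pool.Agent.H709Exc.Defs

set_option autoImplicit false

universe u v

namespace Pool.Agent.H709Exc

-- put your auxiliary lemmas here (names starting with the job's theorem name), then the theorem


open Cardinal Order Set

theorem col_number_lex {V : Type u} (β : V → Ordinal.{u}) (ρ : Ordinal.{u} → V → Ordinal.{u}) :
    ∃ σ : V → Ordinal.{u}, ∀ v w,
      σ v < σ w ↔ β v < β w ∨ (β v = β w ∧ ρ (β w) v < ρ (β w) w) := by
  classical
  let L : Ordinal.{u} := ⨆ v : V, succ (ρ (β v) v)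
  have hL : ∀ v, ρ (β v) v < L := fun v =>
    (lt_succ _).trans_le (le_ciSup (f := fun v : V => succ (ρ (β v) v))
      Ordinal.bddAbove_of_small v)
  refine ⟨fun v => L * β v + ρ (β v) v, fun v w => ?_⟩
  have key : ∀ v w, β v < β w → L * β v + ρ (β v) v < L * β w + ρ (β w) w := by
    intro v w h
    calc L * β v + ρ (β v) v < L * β v + L := by
            exact (add_lt_add_iff_left _).2 (hL v)
      _ = L * succ (β v) := by rw [Ordinal.mul_succ]
      _ ≤ L * β w := by gcongr; exact succ_le_of_lt h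
      _ ≤ L * β w + ρ (β w) w := le_self_add
  constructor
  · intro h
    rcases lt_trichotomy (β v) (β w) with h1 | h1 | h1
    · exact Or.inl h1
    · right
      refine ⟨h1, ?_⟩
      simp only [h1] at h
      exact (add_lt_add_iff_left _).1 h
    · exact absurd (key w v h1) (not_lt.2 h.le)
  · rintro (h | ⟨h1, h2⟩)
    · exact key v w h
    · simp only [h1]
      exact (add_lt_add_iff_left _).2 h2

theorem col_number_chain {V : Type u} {ι : Type*} [LinearOrder ι] (J : Set ι) (hJ : J.Nonempty)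
    (f : ι → Set V) (hf : Monotone f) (S : Finset V) (hS : ∀ x ∈ S, ∃ i ∈ J, x ∈ f i) :
    ∃ i ∈ J, ∀ x ∈ S, x ∈ f i := by
  classical
  induction S using Finset.induction_on with
  | empty => obtain ⟨i, hi⟩ := hJ; exact ⟨i, hi, by simp⟩
  | insert a S ha ih =>
    obtain ⟨i, hi, hi'⟩ := ih (fun x hx => hS x (Finset.mem_insert_of_mem hx))
    obtain ⟨j, hj, hj'⟩ := hS a (Finset.mem_insert_self _ _)
    rcases le_total i j with h | h
    · refine ⟨j, hj, fun x hx => ?_⟩
      rcases Finset.mem_insert.1 hx with rfl | hx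
      · exact hj'
      · exact hf h (hi' x hx)
    · refine ⟨i, hi, fun x hx => ?_⟩
      rcases Finset.mem_insert.1 hx with rfl | hx
      · exact hf h hj'
      · exact hi' x hx

/-- one step of the closure -/
def col_number_step {V : Type u} (H : SimpleGraph V) (m : ℕ) (X : Set V) : Set V :=
  X ∪ {w | ∃ S : Finset V, (↑S : Set V) ⊆ X ∧ S.card = m ∧ ∀ v ∈ S, H.Adj v w}

def col_number_cl {V : Type u} (H : SimpleGraph V) (m : ℕ) (X : Set V) : Set V :=
  ⋃ n : ℕ, (col_number_step H m)^[n] X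

theorem col_number_card_step {V : Type u} (H : SimpleGraph V) (m : ℕ)
    (h : ∀ S : Finset V, S.card = m → {w | ∀ v ∈ S, H.Adj v w}.Finite)
    (μ : Cardinal.{u}) (hμ : ℵ₀ ≤ μ) (X : Set V) (hX : #X ≤ μ) :
    #(col_number_step H m X) ≤ μ := by
  classical
  have hsub : {w | ∃ S : Finset V, (↑S : Set V) ⊆ X ∧ S.card = m ∧ ∀ v ∈ S, H.Adj v w} ⊆
      ⋃ S : Finset X, {w | S.card = m ∧ ∀ v ∈ S, H.Adj v.1 w} := by
    rintro w ⟨S, hS, hc, hw⟩
    rw [Set.mem_iUnion]
    refine ⟨S.subtype (· ∈ X), ?_, ?_⟩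
    · rw [Finset.card_subtype, Finset.filter_true_of_mem (fun x hx => hS hx)]
      exact hc
    · intro v hv
      rw [Finset.mem_subtype] at hv
      exact hw _ hv
  have hfin : ∀ S : Finset X, #{w | S.card = m ∧ ∀ v ∈ S, H.Adj v.1 w} ≤ ℵ₀ := by
    intro S
    rw [Cardinal.le_aleph0_iff_set_countable]
    by_cases hc : S.card = m
    · have h1 := h (S.map (Function.Embedding.subtype _)) (by rw [Finset.card_map]; exact hc)
      refine (h1.subset ?_).countable
      rintro w ⟨-, hw⟩ v hv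
      rw [Finset.mem_map] at hv
      obtain ⟨x, hx, rfl⟩ := hv
      exact hw x hx
    · have : {w | S.card = m ∧ ∀ v ∈ S, H.Adj v.1 w} = ∅ := by
        ext w
        simp [hc]
      rw [this]
      exact Set.countable_empty
  have hFin : #(Finset X) ≤ μ := by
    rcases finite_or_infinite X with hf | hi
    · exact (Cardinal.lt_aleph0_of_finite (Finset X)).le.trans hμ
    · rw [Cardinal.mk_finset_of_infinite]
      exact hX
  have h2 : #(↥(⋃ S : Finset X, {w | S.card = m ∧ ∀ v ∈ S, H.Adj v.1 w})) ≤ μ := by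
    refine (Cardinal.mk_iUnion_le _).trans ?_
    refine (mul_le_mul' hFin (ciSup_le' hfin)).trans ?_
    exact (Cardinal.mul_le_max_of_aleph0_le_left hμ).trans (max_le le_rfl hμ)
  unfold col_number_step
  refine (Cardinal.mk_union_le _ _).trans ?_
  refine (add_le_add hX ((Cardinal.mk_le_mk_of_subset hsub).trans h2)).trans ?_
  rw [Cardinal.add_eq_self hμ]

theorem col_number_card_cl {V : Type u} (H : SimpleGraph V) (m : ℕ)
    (h : ∀ S : Finset V, S.card = m → {w | ∀ v ∈ S, H.Adj v w}.Finite)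
    (μ : Cardinal.{u}) (hμ : ℵ₀ ≤ μ) (X : Set V) (hX : #X ≤ μ) :
    #(col_number_cl H m X) ≤ μ := by
  have hn : ∀ n : ℕ, #((col_number_step H m)^[n] X) ≤ μ := by
    intro n
    induction n with
    | zero => exact hX
    | succ n ih =>
      rw [Function.iterate_succ_apply']
      exact col_number_card_step H m h μ hμ _ ih
  unfold col_number_cl
  have h1 := Cardinal.mk_iUnion_le_sum_mk_lift (f := fun n : ℕ => (col_number_step H m)^[n] X)
  have h2 : Cardinal.sum (fun n : ℕ => #((col_number_step H m)^[n] X)) ≤ μ := by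
    refine (Cardinal.sum_le_sum _ (fun _ => μ) hn).trans ?_
    rw [Cardinal.sum_const]
    simp only [Cardinal.lift_id, Cardinal.mk_nat, Cardinal.lift_aleph0]
    exact (Cardinal.mul_le_max_of_aleph0_le_left le_rfl).trans (by simp [hμ])
  have h3 : #(↥(⋃ n : ℕ, (col_number_step H m)^[n] X)) ≤
      Cardinal.sum (fun n : ℕ => #((col_number_step H m)^[n] X)) := by
    simpa using h1
  exact h3.trans h2

theorem col_number_sub_cl {V : Type u} (H : SimpleGraph V) (m : ℕ) (X : Set V) :
    X ⊆ col_number_cl H m X := fun x hx => Set.mem_iUnion.2 ⟨0, hx⟩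

theorem col_number_iter_mono {V : Type u} (H : SimpleGraph V) (m : ℕ) (X : Set V) :
    Monotone (fun n : ℕ => (col_number_step H m)^[n] X) := by
  refine monotone_nat_of_le_succ (fun n => ?_)
  show (col_number_step H m)^[n] X ⊆ (col_number_step H m)^[n+1] X
  rw [Function.iterate_succ_apply']
  exact Set.subset_union_left

theorem col_number_closed {V : Type u} (H : SimpleGraph V) (m : ℕ) (X : Set V)
    (S : Finset V) (hS : (↑S : Set V) ⊆ col_number_cl H m X) (hc : S.card = m) (w : V)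
    (hw : ∀ v ∈ S, H.Adj v w) : w ∈ col_number_cl H m X := by
  have h1 : ∃ n ∈ (Set.univ : Set ℕ), ∀ x ∈ S, x ∈ (col_number_step H m)^[n] X := by
    refine col_number_chain Set.univ Set.univ_nonempty _ (col_number_iter_mono H m X) S ?_
    intro x hx
    obtain ⟨n, hn⟩ := Set.mem_iUnion.1 (hS hx)
    exact ⟨n, Set.mem_univ _, hn⟩
  obtain ⟨n, -, hn⟩ := h1
  refine Set.mem_iUnion.2 ⟨n + 1, ?_⟩
  rw [Function.iterate_succ_apply']
  exact Or.inr ⟨S, hn, hc, hw⟩


theorem col_number_step_mono {V : Type u} (H : SimpleGraph V) (m : ℕ) :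
    Monotone (col_number_step H m) := by
  intro X Y hXY
  rintro w (hw | ⟨S, hS, hc, hw⟩)
  · exact Or.inl (hXY hw)
  · exact Or.inr ⟨S, hS.trans hXY, hc, hw⟩

theorem col_number_cl_mono {V : Type u} (H : SimpleGraph V) (m : ℕ) :
    Monotone (col_number_cl H m) := by
  intro X Y hXY
  unfold col_number_cl
  exact Set.iUnion_mono (fun n => (col_number_step_mono H m).iterate n hXY)

theorem col_number_aux {V : Type u} (H : SimpleGraph V) (m : ℕ)
    (h : ∀ S : Finset V, S.card = m → {w | ∀ v ∈ S, H.Adj v w}.Finite) (κ : Cardinal.{u}) :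
    ∀ C : Set V, #C = κ → ∃ ρ : V → Ordinal.{u}, Set.InjOn ρ C ∧
      ∀ v ∈ C, {w | w ∈ C ∧ H.Adj v w ∧ ρ w < ρ v}.Finite := by
  classical
  induction κ using WellFoundedLT.induction with
  | ind κ IH =>
  intro C hC
  by_cases hcount : C.Countable
  · obtain ⟨f, hf⟩ := Set.countable_iff_exists_injOn.1 hcount
    refine ⟨fun v => (f v : Ordinal.{u}), ?_, ?_⟩
    · intro x hx y hy hxy
      have hxy' : ((f x : ℕ) : Ordinal.{u}) = (f y : ℕ) := hxy
      exact hf hx hy (by exact_mod_cast hxy')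
    · intro v hv
      refine Set.Finite.of_finite_image (f := f) ((Set.finite_Iio (f v)).subset ?_) ?_
      · rintro _ ⟨w, ⟨-, -, hw⟩, rfl⟩
        have : ((f w : ℕ) : Ordinal.{u}) < (f v : ℕ) := hw
        exact_mod_cast this
      · exact hf.mono (fun w hw => hw.1)
  · have hκ : ℵ₀ < κ := by
      rw [← hC]
      rw [← Cardinal.le_aleph0_iff_set_countable, not_le] at hcount
      exact hcount
    let A := κ.ord.ToType
    have hA : #A = #C := by rw [hC]; exact Cardinal.mk_ord_toType κ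
    obtain ⟨e⟩ := Cardinal.eq.1 hA
    let P : A → Set V := fun a => (fun b => (e b : V)) '' Set.Iic a
    let X : A → Set V := fun a => col_number_cl H m (P a)
    have hPmono : Monotone P := fun a b hab => Set.image_mono (Set.Iic_subset_Iic.2 hab)
    have hXmono : Monotone X := fun a b hab => col_number_cl_mono H m (hPmono hab)
    have hPcard : ∀ a, #(P a) < κ := by
      intro a
      refine lt_of_le_of_lt Cardinal.mk_image_le ?_
      rw [← Set.Iio_insert]
      refine lt_of_le_of_lt Cardinal.mk_insert_le ?_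
      exact Cardinal.add_lt_of_lt hκ.le (Cardinal.mk_Iio_toType_ord_lt a)
        (Cardinal.one_lt_aleph0.trans hκ)
    have hXcard : ∀ a, #(X a) < κ := by
      intro a
      refine lt_of_le_of_lt (col_number_card_cl H m h (max (#(P a)) ℵ₀) (le_max_right _ _) (P a)
        (le_max_left _ _)) ?_
      exact max_lt (hPcard a) hκ
    have hne : ∀ v ∈ C, {a : A | v ∈ X a}.Nonempty := by
      intro v hv
      refine ⟨e.symm ⟨v, hv⟩, ?_⟩
      apply col_number_sub_cl
      exact ⟨e.symm ⟨v, hv⟩, Set.mem_Iic.2 le_rfl, by simp⟩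
    let μ : V → A := fun v => if hv : v ∈ C then
      (wellFounded_lt (α := A)).min {a : A | v ∈ X a} (hne v hv) else
        (wellFounded_lt (α := A)).min Set.univ (by
          have : (C : Set V).Nonempty := by
            rw [Set.nonempty_iff_ne_empty]
            rintro rfl
            exact hcount Set.countable_empty
          obtain ⟨c, hc⟩ := this
          exact ⟨e.symm ⟨c, hc⟩, Set.mem_univ _⟩)
    have hμ1 : ∀ v ∈ C, v ∈ X (μ v) := by
      intro v hv
      simp only [μ, dif_pos hv]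
      exact (wellFounded_lt (α := A)).min_mem {a : A | v ∈ X a} (hne v hv)
    have hμ2 : ∀ v ∈ C, ∀ a, v ∈ X a → μ v ≤ a := by
      intro v hv a ha
      simp only [μ, dif_pos hv]
      exact not_lt.1 ((wellFounded_lt (α := A)).not_lt_min {a : A | v ∈ X a} ha)
    let β : V → Ordinal.{u} := fun v => Ordinal.typein (α := A) (· < ·) (μ v)
    have hβlt : ∀ v w, β v < β w ↔ μ v < μ w := fun v w => Ordinal.typein_lt_typein (α := A) (· < ·)
    have hβeq : ∀ v w, β v = β w ↔ μ v = μ w := fun v w => Ordinal.typein_inj (α := A) (· < ·)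
    have hblock : ∀ i : Ordinal.{u}, #{v | v ∈ C ∧ β v = i} < κ := by
      intro i
      rcases Set.eq_empty_or_nonempty {v | v ∈ C ∧ β v = i} with h0 | ⟨v0, hv0, hv0'⟩
      · rw [h0]
        simp only [Cardinal.mk_eq_zero]
        exact lt_of_le_of_lt zero_le hκ
      · refine lt_of_le_of_lt (Cardinal.mk_le_mk_of_subset ?_) (hXcard (μ v0))
        rintro v ⟨hv, hv'⟩
        have : μ v = μ v0 := (hβeq v v0).1 (hv'.trans hv0'.symm)
        rw [← this]
        exact hμ1 v hv
    have hrec : ∀ i : Ordinal.{u}, ∃ ρ : V → Ordinal.{u}, Set.InjOn ρ {v | v ∈ C ∧ β v = i} ∧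
        ∀ v ∈ {v | v ∈ C ∧ β v = i}, {w | w ∈ {v | v ∈ C ∧ β v = i} ∧ H.Adj v w ∧ ρ w < ρ v}.Finite :=
      fun i => IH _ (hblock i) _ rfl
    choose ρ hρ1 hρ2 using hrec
    obtain ⟨σ, hσ⟩ := col_number_lex β ρ
    refine ⟨σ, ?_, ?_⟩
    · intro v hv w hw hvw
      have h1 : ¬ (σ v < σ w) := by rw [hvw]; exact lt_irrefl _
      have h2 : ¬ (σ w < σ v) := by rw [hvw]; exact lt_irrefl _
      rw [hσ] at h1 h2
      push Not at h1 h2
      have h3 : β v = β w := le_antisymm h2.1 h1.1
      have h4 := h1.2 h3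
      have h5 := h2.2 h3.symm
      rw [h3] at h5
      exact hρ1 (β w) ⟨hv, h3⟩ ⟨hw, rfl⟩ (le_antisymm h5 h4)
    · intro v hv
      have hsub : {w | w ∈ C ∧ H.Adj v w ∧ σ w < σ v} ⊆
          {w | w ∈ C ∧ H.Adj v w ∧ μ w < μ v} ∪
          {w | w ∈ {x | x ∈ C ∧ β x = β v} ∧ H.Adj v w ∧ ρ (β v) w < ρ (β v) v} := by
        rintro w ⟨hw, hvw, hlt⟩
        rw [hσ] at hlt
        rcases hlt with hlt | ⟨h1, h2⟩
        · exact Or.inl ⟨hw, hvw, (hβlt w v).1 hlt⟩
        · exact Or.inr ⟨⟨hw, h1⟩, hvw, h2⟩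
      refine (Set.Finite.union ?_ (hρ2 (β v) v ⟨hv, rfl⟩)).subset hsub
      by_contra hinf
      have hinf' : {w | w ∈ C ∧ H.Adj v w ∧ μ w < μ v}.Infinite := hinf
      obtain ⟨w0, hw0⟩ := hinf'.nonempty
      obtain ⟨S, hS, hSc⟩ := hinf'.exists_subset_card_eq m
      obtain ⟨a, ha, haS⟩ := col_number_chain (Set.Iio (μ v)) ⟨μ w0, hw0.2.2⟩ X hXmono S
        (fun x hx => ⟨μ x, (hS hx).2.2, hμ1 x (hS hx).1⟩)
      have hcl : v ∈ X a := col_number_closed H m (P a) S (fun x hx => haS x hx) hSc v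
        (fun x hx => (hS hx).2.1.symm)
      exact absurd (hμ2 v hv a hcl) (not_le.2 ha)

theorem col_number {V : Type u} (H : SimpleGraph V) (m : ℕ)
    (h : ∀ S : Finset V, S.card = m → {w | ∀ v ∈ S, H.Adj v w}.Finite) :
    ∃ ρ : V → Ordinal.{u}, Function.Injective ρ ∧ ∀ v, {w | H.Adj v w ∧ ρ w < ρ v}.Finite := by
  obtain ⟨ρ, h1, h2⟩ := col_number_aux H m h _ Set.univ rfl
  refine ⟨ρ, Set.injOn_univ.1 h1, fun v => ?_⟩
  refine (h2 v (Set.mem_univ _)).subset ?_
  rintro w hw
  exact ⟨Set.mem_univ _, hw⟩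


end Pool.Agent.H709Exc
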