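import Mathlib
import Pool.Agent.H709Exc.Defs

set_option autoImplicit false

universe u v

namespace Pool.Agent.H709Exc

-- put your auxiliary lemmas here (names starting with the job's theorem name), then the theorem

open Classical in
theorem core_count {V : Type u} (A : V → V → Prop) (hs : ∀ x y, A x y → A y x) (l : ℕ)
    (h : ∀ S : Finset V, S.Nonempty → ∃ v ∈ S, (S.filter (A v)).card ≤ l) :
    ∀ (m : ℕ) (S : Finset V), S.card = m → ∑ u ∈ S, (S.filter (A u)).card ≤ 2 * l * S.card := by
  intro m
  induction m with
  | zero =>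
    intro S hS
    rw [Finset.card_eq_zero] at hS
    subst hS
    simp
  | succ m ih =>
    intro S hS
    have hne : S.Nonempty := by
      rw [← Finset.card_pos]; omega
    obtain ⟨v, hv, hvl⟩ := h S hne
    have hS' : (S.erase v).card = m := by
      rw [Finset.card_erase_of_mem hv]; omega
    have h1 := ih (S.erase v) hS'
    have h2 : ∀ u, (S.filter (A u)).card ≤ ((S.erase v).filter (A u)).card + (if A u v then 1 else 0) := by
      intro u
      conv_lhs => rw [← Finset.insert_erase hv]
      rw [Finset.filter_insert]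
      split_ifs with h3
      · exact Finset.card_insert_le _ _
      · simp
    have h3 : ∑ u ∈ S.erase v, (if A u v then 1 else 0) ≤ l := by
      rw [← Finset.card_filter]
      refine le_trans (Finset.card_le_card ?_) hvl
      intro w hw
      rw [Finset.mem_filter] at hw ⊢
      exact ⟨Finset.mem_of_mem_erase hw.1, hs _ _ hw.2⟩
    have h4 : ∑ u ∈ S, (S.filter (A u)).card = (S.filter (A v)).card + ∑ u ∈ S.erase v, (S.filter (A u)).card := by
      rw [Finset.add_sum_erase S (fun u => (S.filter (A u)).card) hv]
    have h5 : ∑ u ∈ S.erase v, (S.filter (A u)).card ≤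
        ∑ u ∈ S.erase v, ((S.erase v).filter (A u)).card + ∑ u ∈ S.erase v, (if A u v then 1 else 0) := by
      rw [← Finset.sum_add_distrib]
      exact Finset.sum_le_sum fun u _ => h2 u
    rw [h4, hS]
    rw [hS'] at h1
    have h6 : 2 * l * (m + 1) = 2 * l * m + l + l := by ring
    omega

theorem core {V : Type u} [Fintype V] [Nonempty V] (H : SimpleGraph V) (n l : ℕ)
    (hdeg : ∀ v, ∃ S : Finset V, 2 * n * l + 1 ≤ S.card ∧ ∀ w ∈ S, H.Adj v w)
    (c : Sym2 V → Fin n) : ∃ i, ∃ S : Set V, S.Nonempty ∧ ∀ v ∈ S, ∀ T : Finset V, T.card < l →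
      ∃ w ∈ S, w ∉ T ∧ (colorClass H c i).Adj v w := by
  classical
  by_contra hcon
  push Not at hcon
  have hc : ∀ i, ∑ u ∈ (Finset.univ : Finset V), ((Finset.univ : Finset V).filter ((colorClass H c i).Adj u)).card ≤
      2 * l * (Finset.univ : Finset V).card := by
    intro i
    have := core_count (fun x y => (colorClass H c i).Adj x y) (fun x y h => h.symm) l ?_ _ Finset.univ rfl
    · convert this
    · intro S hS
      obtain ⟨v, hv, T, hT, h⟩ := hcon i (S : Set V) (by simpa using hS)
      refine ⟨v, by simpa using hv, ?_⟩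
      refine le_trans (Finset.card_le_card ?_) hT.le
      intro w hw
      rw [Finset.mem_filter] at hw
      by_contra hwT
      exact h w (by simpa using hw.1) hwT hw.2
  have hsum : ∑ i : Fin n, ∑ u ∈ (Finset.univ : Finset V), ((Finset.univ : Finset V).filter ((colorClass H c i).Adj u)).card ≤
      n * (2 * l * (Finset.univ : Finset V).card) := by
    refine le_trans (Finset.sum_le_sum fun i _ => hc i) ?_
    simp
  rw [Finset.sum_comm] at hsum
  have hlow : ∀ u : V, 2 * n * l + 1 ≤ ∑ i : Fin n, ((Finset.univ : Finset V).filter ((colorClass H c i).Adj u)).card := by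
    intro u
    obtain ⟨S, hS, hadj⟩ := hdeg u
    refine le_trans hS ?_
    rw [Finset.card_eq_sum_card_fiberwise (f := fun w => c s(u, w)) (t := Finset.univ) (fun _ _ => by simp)]
    refine Finset.sum_le_sum fun i _ => Finset.card_le_card ?_
    intro w hw
    rw [Finset.mem_filter] at hw ⊢
    exact ⟨Finset.mem_univ _, hadj w hw.1, hw.2⟩
  have h1 : (Finset.univ : Finset V).card * (2 * n * l + 1) ≤ ∑ u ∈ (Finset.univ : Finset V), ∑ i : Fin n, ((Finset.univ : Finset V).filter ((colorClass H c i).Adj u)).card := by
    rw [← smul_eq_mul]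
    exact Finset.card_nsmul_le_sum _ _ _ (fun u _ => hlow u)
  have h2 := h1.trans hsum
  have h3 : 0 < (Finset.univ : Finset V).card := Finset.card_pos.mpr Finset.univ_nonempty
  generalize (Finset.univ : Finset V).card = N at *
  nlinarith


end Pool.Agent.H709Exc
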