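import Mathlib
import Pool.Agent.H709Exc.Defs

set_option autoImplicit false

universe u v

namespace Pool.Agent.H709Exc

-- put your auxiliary lemmas here (names starting with the job's theorem name), then the theorem

theorem cover_col {V : Type u} (H : SimpleGraph V) (N : ℕ) (B : Finset V) (hB : B.card ≤ N)
    (h : ∀ a b, H.Adj a b → a ∈ B ∨ b ∈ B) :
    ∃ c : Sym2 V → Fin (N + 1), ∀ i, IsInter (colorClass H c i) := by
  classical
  have hidx : ∃ idx : V → Fin (N + 1), ∀ x ∈ B, ∀ y ∈ B, idx x = idx y → x = y := by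
    refine ⟨fun v => if hv : v ∈ B then Fin.castLE (by omega) (B.equivFin ⟨v, hv⟩) else Fin.last N, ?_⟩
    intro x hx y hy hxy
    simp only [dif_pos hx, dif_pos hy] at hxy
    have h1 := Fin.castLE_injective _ hxy
    have h2 := B.equivFin.injective h1
    exact congrArg Subtype.val h2
  obtain ⟨idx, hinj⟩ := hidx
  refine ⟨fun e => if he : ∃ b, b ∈ B ∧ b ∈ e then idx he.choose else Fin.last N, ?_⟩
  intro i a b c d hab hcd
  have hex : ∀ x y, H.Adj x y → ∃ z, z ∈ B ∧ z ∈ s(x, y) := by
    intro x y hxy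
    rcases h x y hxy with h1 | h1
    · exact ⟨x, h1, Sym2.mem_mk_left x y⟩
    · exact ⟨y, h1, Sym2.mem_mk_right x y⟩
  have h1 := hex a b hab.1
  have h2 := hex c d hcd.1
  have e1 : idx h1.choose = i := by
    have := hab.2
    simp only [dif_pos h1] at this
    exact this
  have e2 : idx h2.choose = i := by
    have := hcd.2
    simp only [dif_pos h2] at this
    exact this
  have e3 : h1.choose = h2.choose := hinj _ h1.choose_spec.1 _ h2.choose_spec.1 (e1.trans e2.symm)
  have m1 := Sym2.mem_iff.1 h1.choose_spec.2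
  have m2 := Sym2.mem_iff.1 h2.choose_spec.2
  rw [e3] at m1
  rcases m1 with m1 | m1 <;> rcases m2 with m2 | m2
  · exact Or.inl (m1.symm.trans m2)
  · exact Or.inr (Or.inl (m1.symm.trans m2))
  · exact Or.inr (Or.inr (Or.inl (m1.symm.trans m2)))
  · exact Or.inr (Or.inr (Or.inr (m1.symm.trans m2)))


end Pool.Agent.H709Exc
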