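import Mathlib
import Pool.Agent.H709Exc.Defs

set_option autoImplicit false

universe u v

namespace Pool.Agent.H709Exc

-- put your auxiliary lemmas here (names starting with the job's theorem name), then the theorem

theorem free_of_girth {k : ℕ} (G₁ : SimpleGraph (Fin k)) (h : ¬ G₁.IsAcyclic) {V : Type u}
    (H : SimpleGraph V) (hg : ∀ (v : V) (w : H.Walk v v), w.IsCycle → k < w.length) :
    ¬ G₁.IsContained H := by
  rintro ⟨f⟩
  apply h
  intro v p hp
  have hlen : p.length ≤ k := by
    have h1 : p.support.tail.Nodup := hp.support_nodup
    have h2 := h1.length_le_card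
    rw [List.length_tail, SimpleGraph.Walk.length_support, Fintype.card_fin] at h2
    omega
  have hc : (p.map f.toHom).IsCycle := hp.map f.injective
  have h3 := hg _ _ hc
  rw [SimpleGraph.Walk.length_map] at h3
  omega


end Pool.Agent.H709Exc
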