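import Mathlib
import Pool.Agent.H709Exc.Defs

set_option autoImplicit false

universe u v

namespace Pool.Agent.H709Exc

-- put your auxiliary lemmas here (names starting with the job's theorem name), then the theorem

def girth_graph_act (d g : ℕ) (c : Fin d) (l : List (Fin d)) : List (Fin d) :=
  if l.head? = some c then l.tail else if l.length < g then c :: l else l

theorem girth_graph_mem (d g : ℕ) (c : Fin d) (l : List (Fin d))
    (h : l.IsChain (fun a b => a ≠ b) ∧ l.length ≤ g) :
    (girth_graph_act d g c l).IsChain (fun a b => a ≠ b) ∧ (girth_graph_act d g c l).length ≤ g := by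
  unfold girth_graph_act
  split_ifs with h1 h2
  · refine ⟨h.1.tail, ?_⟩
    rw [List.length_tail]
    omega
  · refine ⟨?_, by simpa using h2⟩
    cases l with
    | nil => exact List.isChain_singleton _
    | cons a t =>
      rw [List.isChain_cons_cons]
      refine ⟨?_, h.1⟩
      intro hca
      apply h1
      rw [hca]
      rfl
  · exact h

theorem girth_graph_inv (d g : ℕ) (c : Fin d) (l : List (Fin d))
    (h : l.IsChain (fun a b => a ≠ b) ∧ l.length ≤ g) :
    girth_graph_act d g c (girth_graph_act d g c l) = l := by
  by_cases h1 : l.head? = some c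
  · cases l with
    | nil => simp at h1
    | cons a t =>
      have hac : a = c := by simpa using h1
      subst hac
      have e1 : girth_graph_act d g a (a :: t) = t := by
        unfold girth_graph_act
        rw [if_pos h1]
        rfl
      rw [e1]
      have h2 : t.head? ≠ some a := by
        cases t with
        | nil => simp
        | cons b t' =>
          have := (List.isChain_cons_cons.mp h.1).1
          intro hb
          apply this
          have : b = a := by simpa using hb
          exact this.symm
      have h3 : t.length < g := by
        have := h.2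
        simp at this
        omega
      unfold girth_graph_act
      rw [if_neg h2, if_pos h3]
  · by_cases h2 : l.length < g
    · have e1 : girth_graph_act d g c l = c :: l := by
        unfold girth_graph_act
        rw [if_neg h1, if_pos h2]
      rw [e1]
      have h3 : (c :: l).head? = some c := rfl
      unfold girth_graph_act
      rw [if_pos h3]
      rfl
    · have e1 : girth_graph_act d g c l = l := by
        unfold girth_graph_act
        rw [if_neg h1, if_neg h2]
      rw [e1, e1]

open scoped Classical in
theorem girth_graph_biggs (d g : ℕ) : ∃ (Γ : Type) (_ : Group Γ) (_ : Fintype Γ), ∃ s : Fin d → Γ,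
    (∀ c, s c * s c = 1) ∧ ∀ w : List (Fin d), w ≠ [] → w.length ≤ g →
      w.IsChain (fun a b => a ≠ b) → (w.map s).prod ≠ 1 := by
  let B : Type := {l : List (Fin d) // l.IsChain (fun a b => a ≠ b) ∧ l.length ≤ g}
  have hfin : Finite B := by
    have h1 : Finite {l : List (Fin d) | l.length ≤ g} := (List.finite_length_le (Fin d) g)
    exact Finite.of_injective (fun b : B => (⟨b.1, b.2.2⟩ : {l : List (Fin d) | l.length ≤ g}))
      (fun a b hab => by
        apply Subtype.ext
        exact congrArg (fun z => z.1) hab)
  let s : Fin d → Equiv.Perm B := fun c =>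
    { toFun := fun b => ⟨girth_graph_act d g c b.1, girth_graph_mem d g c b.1 b.2⟩
      invFun := fun b => ⟨girth_graph_act d g c b.1, girth_graph_mem d g c b.1 b.2⟩
      left_inv := fun b => Subtype.ext (girth_graph_inv d g c b.1 b.2)
      right_inv := fun b => Subtype.ext (girth_graph_inv d g c b.1 b.2) }
  refine ⟨Equiv.Perm B, inferInstance, Fintype.ofFinite _, s, ?_, ?_⟩
  · intro c
    apply Equiv.ext
    intro b
    apply Subtype.ext
    exact girth_graph_inv d g c b.1 b.2
  · intro w hw hlen hch hprod
    have key : ∀ w : List (Fin d), w.length ≤ g → w.IsChain (fun a b => a ≠ b) →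
        ((w.map s).prod (⟨[], List.isChain_nil, Nat.zero_le g⟩ : B)).1 = w := by
      intro w
      induction w with
      | nil => intro _ _; rfl
      | cons c t ih =>
        intro h1 h2
        have h3 : t.length < g := by
          simp at h1
          omega
        have h4 := ih h3.le h2.tail
        rw [List.map_cons, List.prod_cons, Equiv.Perm.mul_apply]
        show girth_graph_act d g c ((t.map s).prod (⟨[], List.isChain_nil, Nat.zero_le g⟩ : B)).1 = _
        rw [h4]
        unfold girth_graph_act
        rw [if_neg, if_pos h3]
        cases t with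
        | nil => simp
        | cons b t' =>
          intro hb
          apply (List.isChain_cons_cons.mp h2).1
          have : b = c := by simpa using hb
          exact this.symm
    have h5 := key w hlen hch
    rw [hprod] at h5
    exact hw h5.symm



theorem girth_graph_walk {Γ : Type} [Group Γ] (d : ℕ) (s : Fin d → Γ)
    (hs : ∀ c, s c * s c = 1) (H : SimpleGraph (ULift.{u} Γ))
    (hH : ∀ x y, H.Adj x y ↔ ∃ c, y.down = x.down * s c)
    {a b : ULift.{u} Γ} (p : H.Walk a b) (hp : p.IsTrail) :
    ∃ l : List (Fin d), l.length = p.length ∧ b.down = a.down * (l.map s).prod ∧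
      l.IsChain (fun a b => a ≠ b) ∧
      ∀ c, l.head? = some c → s(a, ULift.up (a.down * s c)) ∈ p.edges := by
  induction p with
  | nil =>
    refine ⟨[], rfl, by simp, List.isChain_nil, ?_⟩
    intro c hc
    simp at hc
  | @cons a u b h p ih =>
    rw [SimpleGraph.Walk.isTrail_cons] at hp
    obtain ⟨l, hl1, hl2, hl3, hl4⟩ := ih hp.1
    obtain ⟨c, hc⟩ := (hH _ _).1 h
    have hu : u = ULift.up (a.down * s c) := by
      apply ULift.ext
      exact hc
    refine ⟨c :: l, by simp [hl1], ?_, ?_, ?_⟩
    · rw [List.map_cons, List.prod_cons, hl2, hc, mul_assoc]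
    · cases l with
      | nil => exact List.isChain_singleton _
      | cons c' t =>
        rw [List.isChain_cons_cons]
        refine ⟨?_, hl3⟩
        intro hcc
        subst hcc
        have h1 := hl4 c rfl
        apply hp.2
        have h2 : (ULift.up (u.down * s c) : ULift.{u} Γ) = a := by
          apply ULift.ext
          show u.down * s c = a.down
          rw [hc, mul_assoc, hs, mul_one]
        rw [h2] at h1
        rw [Sym2.eq_swap]
        exact h1
    · intro c' hc'
      have : c = c' := by simpa using hc'
      subst this
      rw [SimpleGraph.Walk.edges_cons, ← hu]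
      exact List.mem_cons_self

theorem girth_graph (d g : ℕ) : ∃ (V : Type u) (_ : Fintype V) (_ : Nonempty V)
    (H : SimpleGraph V), (∀ v, ∃ S : Finset V, d ≤ S.card ∧ ∀ w ∈ S, H.Adj v w) ∧
      ∀ (v : V) (w : H.Walk v v), w.IsCycle → g < w.length := by
  classical
  obtain ⟨Γ, hG, hF, s, hs, hw⟩ := girth_graph_biggs d (g + 2)
  have hs1 : ∀ c, s c ≠ 1 := by
    intro c h
    apply hw [c] (by simp) (by simp) (List.isChain_singleton _)
    simp [h]
  have hinj : Function.Injective s := by
    intro c c' h
    by_contra hne
    apply hw [c, c'] (by simp) (by simp)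
    · rw [List.isChain_cons_cons]
      exact ⟨hne, List.isChain_singleton _⟩
    · simp only [List.map_cons, List.map_nil, List.prod_cons, List.prod_nil, mul_one]
      rw [← h, hs]
  let H : SimpleGraph (ULift.{u} Γ) :=
    { Adj := fun x y => ∃ c, y.down = x.down * s c
      symm := ⟨by
        rintro x y ⟨c, hc⟩
        exact ⟨c, by rw [hc, mul_assoc, hs, mul_one]⟩⟩
      loopless := ⟨by
        rintro x ⟨c, hc⟩
        exact hs1 c (by simpa using hc.symm)⟩ }
  have hH : ∀ x y, H.Adj x y ↔ ∃ c, y.down = x.down * s c := fun x y => Iff.rfl
  refine ⟨ULift.{u} Γ, inferInstance, ⟨ULift.up 1⟩, H, ?_, ?_⟩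
  · intro v
    refine ⟨Finset.univ.image (fun c : Fin d => (ULift.up (v.down * s c) : ULift.{u} Γ)), ?_, ?_⟩
    · rw [Finset.card_image_of_injective, Finset.card_univ, Fintype.card_fin]
      intro c c' h
      have h1 : v.down * s c = v.down * s c' := congrArg ULift.down h
      exact hinj (mul_left_cancel h1)
    · intro w hw
      rw [Finset.mem_image] at hw
      obtain ⟨c, _, hc⟩ := hw
      exact ⟨c, by rw [← hc]⟩
  · intro v w hcyc
    by_contra hlen
    push Not at hlen
    obtain ⟨l, hl1, hl2, hl3, -⟩ := girth_graph_walk d s hs H hH w hcyc.isTrail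
    have hne : l ≠ [] := by
      intro h
      rw [h] at hl1
      have := hcyc.three_le_length
      simp at hl1
      omega
    apply hw l hne (by omega) hl3
    have : v.down * 1 = v.down * (l.map s).prod := by rw [mul_one]; exact hl2
    exact (mul_left_cancel this).symm


end Pool.Agent.H709Exc
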