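import Mathlib
import Pool.Agent.H709Exc.Defs

set_option autoImplicit false

universe u v

namespace Pool.Agent.H709Exc

-- put your auxiliary lemmas here (names starting with the job's theorem name), then the theorem

theorem greedy_leaf {n : ℕ} (F : SimpleGraph (Fin n)) (hF : F.IsAcyclic) (s : Finset (Fin n))
    (hs : s.Nonempty) : ∃ w ∈ s, ∀ u ∈ s, ∀ u' ∈ s, F.Adj w u → F.Adj w u' → u = u' := by
  classical
  obtain ⟨w0, hw0⟩ := hs
  have : Nonempty (↥(s : Set (Fin n))) := ⟨⟨w0, hw0⟩⟩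
  have hac := hF.induce (s : Set (Fin n))
  obtain ⟨a, w, p, hp, hmax⟩ := SimpleGraph.Walk.exists_isPath_forall_isPath_length_le_length (F.induce (s : Set (Fin n)))
  have key : ∀ v : ↥(s : Set (Fin n)), (F.induce (s : Set (Fin n))).Adj w v → v = p.penultimate := by
    intro v hv
    apply hac.eq_penultimate_of_adj_end hp hv
    by_contra hsupp
    have h1 := hp.concat hsupp hv
    have h2 := hmax _ _ _ h1
    rw [SimpleGraph.Walk.length_concat] at h2
    omega
  refine ⟨w.1, w.2, fun u hu u' hu' h1 h2 => ?_⟩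
  have e1 := key ⟨u, hu⟩ h1
  have e2 := key ⟨u', hu'⟩ h2
  have e3 := e1.trans e2.symm
  exact congrArg Subtype.val e3

theorem greedy_ind {l : ℕ} (F : SimpleGraph (Fin l)) (hF : F.IsAcyclic) {V : Type u}
    (K : SimpleGraph V) (S : Set V) (hS : S.Nonempty)
    (h : ∀ v ∈ S, ∀ T : Finset V, T.card < l → ∃ w ∈ S, w ∉ T ∧ K.Adj v w) (n : ℕ) :
    ∀ s : Finset (Fin l), s.card = n → ∃ f : Fin l → V, Set.InjOn f s ∧ (∀ a ∈ s, f a ∈ S) ∧
      ∀ a ∈ s, ∀ b ∈ s, F.Adj a b → K.Adj (f a) (f b) := by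
  classical
  obtain ⟨v0, hv0⟩ := hS
  induction n with
  | zero =>
    intro s hs
    rw [Finset.card_eq_zero] at hs
    subst hs
    exact ⟨fun _ => v0, by simp, by simp, by simp⟩
  | succ n ih =>
    intro s hs
    have hne : s.Nonempty := by
      rw [← Finset.card_pos]; omega
    obtain ⟨w, hw, hleaf⟩ := greedy_leaf F hF s hne
    have hcard : (s.erase w).card = n := by
      rw [Finset.card_erase_of_mem hw]; omega
    have hl : n < l := by
      have := Finset.card_le_univ s
      rw [Fintype.card_fin] at this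
      omega
    obtain ⟨f, hinj, hfS, hadj⟩ := ih (s.erase w) hcard
    have hT : ((s.erase w).image f).card < l :=
      lt_of_le_of_lt (Finset.card_image_le.trans hcard.le) hl
    obtain ⟨x, hxS, hxT, hx⟩ : ∃ x ∈ S, x ∉ (s.erase w).image f ∧
        ∀ b ∈ s, F.Adj w b → K.Adj (f b) x := by
      by_cases hnb : ∃ v ∈ s, F.Adj w v
      · obtain ⟨v, hv, hwv⟩ := hnb
        have hvw : v ∈ s.erase w := Finset.mem_erase.2 ⟨hwv.ne', hv⟩
        obtain ⟨x, hx1, hx2, hx3⟩ := h (f v) (hfS v hvw) _ hT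
        refine ⟨x, hx1, hx2, fun b hb hwb => ?_⟩
        rw [hleaf b hb v hv hwb hwv]
        exact hx3
      · obtain ⟨x, hx1, hx2, _⟩ := h v0 hv0 _ hT
        exact ⟨x, hx1, hx2, fun b hb hwb => absurd ⟨b, hb, hwb⟩ hnb⟩
    have hu : ∀ b, b ≠ w → Function.update f w x b = f b := fun b hb =>
      Function.update_of_ne hb _ _
    have huw : Function.update f w x w = x := Function.update_self _ _ _
    refine ⟨Function.update f w x, ?_, ?_, ?_⟩
    · intro a ha b hb hab
      by_cases haw : a = w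
      · by_cases hbw : b = w
        · rw [haw, hbw]
        · exfalso
          rw [haw, huw, hu b hbw] at hab
          exact hxT (Finset.mem_image.2 ⟨b, Finset.mem_erase.2 ⟨hbw, hb⟩, hab.symm⟩)
      · by_cases hbw : b = w
        · exfalso
          rw [hbw, huw, hu a haw] at hab
          exact hxT (Finset.mem_image.2 ⟨a, Finset.mem_erase.2 ⟨haw, ha⟩, hab⟩)
        · rw [hu a haw, hu b hbw] at hab
          exact hinj (Finset.mem_coe.2 (Finset.mem_erase.2 ⟨haw, ha⟩))
            (Finset.mem_coe.2 (Finset.mem_erase.2 ⟨hbw, hb⟩)) hab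
    · intro a ha
      by_cases haw : a = w
      · rw [haw, huw]; exact hxS
      · rw [hu a haw]; exact hfS a (Finset.mem_erase.2 ⟨haw, ha⟩)
    · intro a ha b hb hab
      by_cases haw : a = w
      · subst haw
        rw [huw, hu b hab.ne']
        exact (hx b hb hab).symm
      · by_cases hbw : b = w
        · subst hbw
          rw [huw, hu a haw]
          exact hx a ha hab.symm
        · rw [hu a haw, hu b hbw]
          exact hadj a (Finset.mem_erase.2 ⟨haw, ha⟩) b (Finset.mem_erase.2 ⟨hbw, hb⟩) hab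

theorem greedy {l : ℕ} (F : SimpleGraph (Fin l)) (hF : F.IsAcyclic) {V : Type u}
    (K : SimpleGraph V) (S : Set V) (hS : S.Nonempty)
    (h : ∀ v ∈ S, ∀ T : Finset V, T.card < l → ∃ w ∈ S, w ∉ T ∧ K.Adj v w) :
    F.IsContained K := by
  obtain ⟨f, hinj, _, hadj⟩ := greedy_ind F hF K S hS h l Finset.univ (by simp)
  refine ⟨⟨⟨f, fun {a b} hab => hadj a (Finset.mem_univ a) b (Finset.mem_univ b) hab⟩, ?_⟩⟩
  intro a b hab
  exact hinj (Finset.mem_coe.2 (Finset.mem_univ a)) (Finset.mem_coe.2 (Finset.mem_univ b)) hab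


end Pool.Agent.H709Exc
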