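import Mathlib
import Pool.Agent.H709Exc.Defs

set_option autoImplicit false

universe u v

namespace Pool.Agent.H709Exc

-- put your auxiliary lemmas here (names starting with the job's theorem name), then the theorem


theorem match_col_greedy {α : Type u} (N : α → Set α) (k : ℕ) (hN : ∀ e, (N e).encard ≤ k) :
    ∃ (r : α → α → Prop) (c : α → Fin (k + 1)), (∀ x y, x ≠ y → r x y ∨ r y x) ∧
      ∀ e e', r e' e → e' ∈ N e → c e' ≠ c e := by
  classical
  have hwo : IsWellOrder α WellOrderingRel := WellOrderingRel.isWellOrder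
  have wf : WellFounded (WellOrderingRel : α → α → Prop) := hwo.wf
  let F : (e : α) → ((e' : α) → WellOrderingRel e' e → Fin (k + 1)) → Fin (k + 1) := fun e ih =>
    if h : ∃ i, ∀ e' (h : WellOrderingRel e' e), e' ∈ N e → ih e' h ≠ i then Classical.choose h else 0
  refine ⟨WellOrderingRel, wf.fix F, ?_, ?_⟩
  · intro x y hxy
    rcases trichotomous_of WellOrderingRel x y with h | h | h
    · exact Or.inl h
    · exact absurd h hxy
    · exact Or.inr h
  · intro e e' hr he'
    have hex : ∃ i, ∀ e' (_ : WellOrderingRel e' e), e' ∈ N e → wf.fix F e' ≠ i := by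
      by_contra hcon
      push Not at hcon
      have hsub : (Set.univ : Set (Fin (k + 1))) ⊆ (wf.fix F) '' (N e) := by
        intro i _
        obtain ⟨e'', _, h2, h3⟩ := hcon i
        exact ⟨e'', h2, h3⟩
      have h1 := (Set.encard_le_encard hsub).trans ((Set.encard_image_le _ _).trans (hN e))
      rw [Set.encard_univ, ENat.card_eq_coe_fintype_card, Fintype.card_fin] at h1
      have h2 : k + 1 ≤ k := by exact_mod_cast h1
      omega
    have hfix : wf.fix F e = F e (fun e' _ => wf.fix F e') := wf.fix_eq F e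
    have hF : F e (fun e' _ => wf.fix F e') = Classical.choose hex := dif_pos hex
    rw [hfix, hF]
    exact Classical.choose_spec hex e' hr he'

theorem match_col {V : Type u} (H : SimpleGraph V) (D : ℕ)
    (h : ∀ v, {w | H.Adj v w}.encard ≤ D) :
    ∃ c : Sym2 V → Fin (2 * D + 1), ∀ i, IsMatch (colorClass H c i) := by
  classical
  let N : Sym2 V → Set (Sym2 V) := fun e => {e' | ∃ a w, a ∈ e ∧ H.Adj a w ∧ e' = s(a, w)}
  have hN : ∀ e, (N e).encard ≤ ((2 * D : ℕ) : ℕ∞) := by
    intro e
    induction e using Sym2.ind with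
    | _ a b =>
    have hsub : N s(a, b) ⊆ (fun w => s(a, w)) '' {w | H.Adj a w} ∪ (fun w => s(b, w)) '' {w | H.Adj b w} := by
      rintro e' ⟨x, w, hx, hadj, rfl⟩
      rw [Sym2.mem_iff] at hx
      rcases hx with rfl | rfl
      · exact Or.inl ⟨w, hadj, rfl⟩
      · exact Or.inr ⟨w, hadj, rfl⟩
    calc (N s(a, b)).encard ≤ _ := Set.encard_le_encard hsub
      _ ≤ _ := Set.encard_union_le _ _
      _ ≤ (D : ℕ∞) + D := add_le_add ((Set.encard_image_le _ _).trans (h a)) ((Set.encard_image_le _ _).trans (h b))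
      _ = ((2 * D : ℕ) : ℕ∞) := by push_cast; ring
  obtain ⟨r, c, htri, hc⟩ := match_col_greedy N (2 * D) hN
  refine ⟨c, fun i a b d hab had => ?_⟩
  obtain ⟨hab1, hab2⟩ := hab
  obtain ⟨had1, had2⟩ := had
  by_contra hne
  have hne' : s(a, b) ≠ s(a, d) := by
    intro he
    exact hne (Sym2.congr_right.mp he)
  rcases htri _ _ hne' with hr | hr
  · exact hc _ _ hr ⟨a, b, Sym2.mem_mk_left _ _, hab1, rfl⟩ (hab2.trans had2.symm)
  · exact hc _ _ hr ⟨a, d, Sym2.mem_mk_left _ _, had1, rfl⟩ (had2.trans hab2.symm)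



end Pool.Agent.H709Exc
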