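import Mathlib
import Pool.Agent.H709Exc.Defs

set_option autoImplicit false

universe u v

namespace Pool.Agent.H709Exc

-- put your auxiliary lemmas here (names starting with the job's theorem name), then the theorem

theorem match_cover_aux {V : Type u} (H : SimpleGraph V) (n : ℕ) :
    (∃ B : Finset V, B.card ≤ 2 * n ∧ ∀ a b, H.Adj a b → a ∈ B ∨ b ∈ B) ∨
    (∃ a b : Fin n → V, (∀ i, H.Adj (a i) (b i)) ∧ Function.Injective a ∧ Function.Injective b ∧
      ∀ i j, a i ≠ b j) := by
  classical
  induction n with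
  | zero =>
    exact Or.inr ⟨Fin.elim0, Fin.elim0, fun i => i.elim0, fun i => i.elim0, fun i => i.elim0,
      fun i => i.elim0⟩
  | succ n ih =>
    rcases ih with ⟨B, hB, hc⟩ | ⟨a, b, h1, h2, h3, h4⟩
    · exact Or.inl ⟨B, by omega, hc⟩
    · by_cases hcov : ∀ x y, H.Adj x y → x ∈ Finset.univ.image a ∪ Finset.univ.image b ∨
          y ∈ Finset.univ.image a ∪ Finset.univ.image b
      · refine Or.inl ⟨Finset.univ.image a ∪ Finset.univ.image b, ?_, hcov⟩
        refine (Finset.card_union_le _ _).trans ?_
        have e1 := Finset.card_image_le (s := (Finset.univ : Finset (Fin n))) (f := a)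
        have e2 := Finset.card_image_le (s := (Finset.univ : Finset (Fin n))) (f := b)
        rw [Finset.card_univ, Fintype.card_fin] at e1 e2
        omega
      · push Not at hcov
        obtain ⟨x, y, hxy, hx, hy⟩ := hcov
        simp only [Finset.mem_union, Finset.mem_image, Finset.mem_univ, true_and, not_or,
          not_exists] at hx hy
        refine Or.inr ⟨Fin.cons x a, Fin.cons y b, ?_, ?_, ?_, ?_⟩
        · intro i
          refine Fin.cases ?_ (fun i => ?_) i
          · simpa using hxy
          · simpa using h1 i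
        · rw [Fin.cons_injective_iff]
          exact ⟨fun ⟨i, hi⟩ => hx.1 i hi, h2⟩
        · rw [Fin.cons_injective_iff]
          exact ⟨fun ⟨i, hi⟩ => hy.2 i hi, h3⟩
        · intro i j
          refine Fin.cases ?_ (fun i => ?_) i
          · refine Fin.cases ?_ (fun j => ?_) j
            · simpa using hxy.ne
            · simpa using fun h => hx.2 j h.symm
          · refine Fin.cases ?_ (fun j => ?_) j
            · simpa using hy.1 i
            · simpa using h4 i j

theorem match_cover {k : ℕ} (G₁ : SimpleGraph (Fin k)) (hm : IsMatch G₁) {V : Type u}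
    (H : SimpleGraph V) (hfree : ¬ G₁.IsContained H) :
    ∃ B : Finset V, B.card ≤ 2 * k ∧ ∀ a b, H.Adj a b → a ∈ B ∨ b ∈ B := by
  classical
  rcases match_cover_aux H k with h | ⟨a, b, h1, h2, h3, h4⟩
  · exact h
  exfalso
  apply hfree
  let f : Fin k → V := fun v =>
    if h : ∃ w, G₁.Adj v w ∧ w < v then b (Classical.choose h) else a v
  have fpos : ∀ v w, G₁.Adj v w → w < v → f v = b w := by
    intro v w hvw hlt
    have hex : ∃ w, G₁.Adj v w ∧ w < v := ⟨w, hvw, hlt⟩
    have h5 : f v = b (Classical.choose hex) := dif_pos hex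
    rw [h5, hm v _ w (Classical.choose_spec hex).1 hvw]
  have fneg : ∀ v, (¬ ∃ w, G₁.Adj v w ∧ w < v) → f v = a v := fun v hv => dif_neg hv
  have hlt : ∀ v w, G₁.Adj v w → v < w → H.Adj (f v) (f w) := by
    intro v w hvw hl
    rw [fpos w v hvw.symm hl, fneg v]
    · exact h1 v
    · rintro ⟨w', hw', hw'2⟩
      have := hm v w w' hvw hw'
      subst this
      exact absurd hl (not_lt.2 hw'2.le)
  have hinj : Function.Injective f := by
    intro v v' hvv
    by_cases hv : ∃ w, G₁.Adj v w ∧ w < v
    · obtain ⟨w, hw, hwl⟩ := hv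
      rw [fpos v w hw hwl] at hvv
      by_cases hv' : ∃ w, G₁.Adj v' w ∧ w < v'
      · obtain ⟨w', hw', hwl'⟩ := hv'
        rw [fpos v' w' hw' hwl'] at hvv
        have h6 := h3 hvv
        subst h6
        exact hm w v v' hw.symm hw'.symm
      · rw [fneg v' hv'] at hvv
        exact absurd hvv.symm (h4 _ _)
    · rw [fneg v hv] at hvv
      by_cases hv' : ∃ w, G₁.Adj v' w ∧ w < v'
      · obtain ⟨w', hw', hwl'⟩ := hv'
        rw [fpos v' w' hw' hwl'] at hvv
        exact absurd hvv (h4 _ _)
      · rw [fneg v' hv'] at hvv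
        exact h2 hvv
  refine ⟨⟨⟨f, ?_⟩, hinj⟩⟩
  intro v w hvw
  rcases lt_or_gt_of_ne hvw.ne with h | h
  · exact hlt v w hvw h
  · exact (hlt w v hvw.symm h).symm


end Pool.Agent.H709Exc
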