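import Mathlib
import Pool.Agent.H709Exc.Defs

set_option autoImplicit false

universe u v

namespace Pool.Agent.H709Exc

-- put your auxiliary lemmas here (names starting with the job's theorem name), then the theorem

theorem match_mono {l : ℕ} (G₂ : SimpleGraph (Fin l)) (hm : IsMatch G₂) :
    ∃ (V : Type u) (H : SimpleGraph V), IsMatch H ∧
      ∀ c : Sym2 V → ℕ, ∃ i, G₂.IsContained (colorClass H c i) := by
  classical
  refine ⟨ULift.{u} (Set ℕ) × Bool, ⟨fun p q => p.1 = q.1 ∧ p.2 ≠ q.2,
    ⟨fun p q h => ⟨h.1.symm, h.2.symm⟩⟩, ⟨fun p h => h.2 rfl⟩⟩, ?_, ?_⟩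
  · rintro ⟨a1, a2⟩ ⟨b1, b2⟩ ⟨c1, c2⟩ ⟨h1, h2⟩ ⟨h3, h4⟩
    simp only at h1 h2 h3 h4
    subst h1
    subst h3
    congr 1
    revert h2 h4
    cases a2 <;> cases b2 <;> cases c2 <;> simp
  · intro c
    obtain ⟨f, hf⟩ : ∃ f : ULift.{u} (Set ℕ) → ℕ, ∀ x, f x = c s((x, false), (x, true)) :=
      ⟨_, fun _ => rfl⟩
    obtain ⟨i, hi⟩ : ∃ i, (f ⁻¹' {i}).Infinite := by
      by_contra hcon
      push Not at hcon
      have h1 : (Set.univ : Set (ULift.{u} (Set ℕ))).Countable := by
        have h2 : (Set.univ : Set (ULift.{u} (Set ℕ))) = ⋃ i, f ⁻¹' {i} := by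
          ext x
          simp
        rw [h2]
        exact Set.countable_iUnion (fun i => (hcon i).countable)
      have h3 : Countable (ULift.{u} (Set ℕ)) := Set.countable_univ_iff.mp h1
      have h4 : Countable (Set ℕ) := Equiv.ulift.symm.injective.countable
      obtain ⟨g, hg⟩ := exists_surjective_nat (Set ℕ)
      exact Function.cantor_surjective g hg
    refine ⟨i, ?_⟩
    let em := hi.natEmbedding
    obtain ⟨a, ha1, ha2⟩ : ∃ a : Fin l → ULift.{u} (Set ℕ), Function.Injective a ∧
        ∀ v, f (a v) = i := by
      refine ⟨fun v => (em v.val : ULift.{u} (Set ℕ)), ?_, fun v => (em v.val).2⟩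
      intro v w h
      exact Fin.ext (em.injective (Subtype.ext h))
    obtain ⟨base, hb1, hb2⟩ : ∃ base : Fin l → Fin l, (∀ v w, G₂.Adj v w → base v = min v w) ∧
        (∀ v, (¬ ∃ w, G₂.Adj v w) → base v = v) := by
      refine ⟨fun v => if h : ∃ w, G₂.Adj v w then min v h.choose else v, ?_, ?_⟩
      · intro v w hvw
        have h : ∃ w, G₂.Adj v w := ⟨w, hvw⟩
        simp only [dif_pos h]
        rw [hm v _ _ h.choose_spec hvw]
      · intro v h
        simp only [dif_neg h]
    have key : ∀ v, base v ≠ v → G₂.Adj (base v) v := by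
      intro v hv
      by_cases h : ∃ w, G₂.Adj v w
      · obtain ⟨w, hw⟩ := h
        have h1 := hb1 v w hw
        rcases min_choice v w with h2 | h2
        · exact absurd (h1.trans h2) hv
        · rw [h1, h2]
          exact hw.symm
      · exact absurd (hb2 v h) hv
    refine ⟨⟨⟨fun v => (a (base v), decide (base v ≠ v)), ?_⟩, ?_⟩⟩
    · intro v w hvw
      have h1 := hb1 v w hvw
      have h2 := hb1 w v hvw.symm
      have h3 : base v = base w := by rw [h1, h2, min_comm]
      have hne : v ≠ w := hvw.ne
      have hcol : c s((a (base v), false), (a (base v), true)) = i := by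
        rw [← hf]
        exact ha2 _
      rcases min_choice v w with h4 | h4
      · have h5 : base v = v := h1.trans h4
        have h6 : base w ≠ w := by
          rw [← h3, h5]
          exact hne
        have e1 : decide (base v ≠ v) = false := by simp [h5]
        have e2 : decide (base w ≠ w) = true := by simp [h6]
        refine ⟨⟨by simp only [h3], ?_⟩, ?_⟩
        · simp only [e1, e2]
          simp
        · simp only [e1, e2]
          rw [← h3]
          exact hcol
      · have h5 : base w = w := by rw [← h3, h1, h4]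
        have h6 : base v ≠ v := by
          rw [h3, h5]
          exact hne.symm
        have e1 : decide (base v ≠ v) = true := by simp [h6]
        have e2 : decide (base w ≠ w) = false := by simp [h5]
        refine ⟨⟨by simp only [h3], ?_⟩, ?_⟩
        · simp only [e1, e2]
          simp
        · simp only [e1, e2]
          rw [← h3, Sym2.eq_swap]
          exact hcol
    · intro v w h
      have h0 : (a (base v), decide (base v ≠ v)) = (a (base w), decide (base w ≠ w)) := h
      rw [Prod.mk.injEq] at h0
      obtain ⟨h1, h2⟩ := h0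
      have h3 := ha1 h1
      have h4 : (base v ≠ v) ↔ (base w ≠ w) := decide_eq_decide.mp h2
      by_cases h5 : base v = v
      · have h6 : base w = w := by
          by_contra h7
          exact (h4.mpr h7) h5
        rw [← h5, ← h6, h3]
      · have h6 := key v h5
        have h7 := key w (h4.mp h5)
        rw [← h3] at h7
        exact hm _ _ _ h6 h7


end Pool.Agent.H709Exc
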