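import Mathlib
import Pool.Agent.H709Exc.Defs

set_option autoImplicit false

universe u v

namespace Pool.Agent.H709Exc

-- put your auxiliary lemmas here (names starting with the job's theorem name), then the theorem

theorem mixed_col_match {V : Type u} (H : SimpleGraph V) (D : ℕ)
    (h : ∀ v, {w | H.Adj v w}.encard ≤ D) :
    ∃ c : Sym2 V → Fin (2 * D + 1), ∀ i, IsMatch (colorClass H c i) := by
  classical
  let r : Sym2 V → Sym2 V → Prop := WellOrderingRel
  have wf : WellFounded r := IsWellFounded.wf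
  let S : Sym2 V → Set (Sym2 V) := fun e => {e' | e' ∈ H.edgeSet ∧ ∃ v, v ∈ e ∧ v ∈ e'}
  have hS : ∀ e, (S e).encard ≤ (D : ℕ∞) + D := by
    intro e
    induction e using Sym2.ind with
    | _ x y =>
      have hsub : S s(x, y) ⊆ (fun w => s(x, w)) '' {w | H.Adj x w} ∪ (fun w => s(y, w)) '' {w | H.Adj y w} := by
        rintro e' ⟨he', v, hv, hv'⟩
        obtain ⟨w, rfl⟩ := hv'
        have hvw : H.Adj v w := by simpa using he'
        rcases Sym2.mem_iff.mp hv with rfl | rfl
        · left; exact ⟨w, hvw, rfl⟩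
        · right; exact ⟨w, hvw, rfl⟩
      refine (Set.encard_le_encard hsub).trans ((Set.encard_union_le _ _).trans ?_)
      exact add_le_add ((Set.encard_image_le _ _).trans (h x)) ((Set.encard_image_le _ _).trans (h y))
  let F : ∀ e, (∀ e', r e' e → Fin (2*D+1)) → Fin (2*D+1) := fun e f =>
    if hh : ∃ i, ∀ e' (hr : r e' e), e' ∈ S e → f e' hr ≠ i then hh.choose else 0
  let c : Sym2 V → Fin (2*D+1) := wf.fix F
  have hc : ∀ e, c e = F e (fun e' _ => c e') := fun e => wf.fix_eq F e
  have key : ∀ e, ∀ e', r e' e → e' ∈ S e → c e' ≠ c e := by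
    intro e
    have hex : ∃ i, ∀ e' (hr : r e' e), e' ∈ S e → (fun e' (_ : r e' e) => c e') e' hr ≠ i := by
      by_contra hcon
      push Not at hcon
      choose g hg1 hg2 hg3 using hcon
      have hg3' : ∀ i, c (g i) = i := hg3
      have ginj : Function.Injective g := by
        intro i j hij
        rw [← hg3' i, ← hg3' j, hij]
      have h1 : (Set.range g).encard = ((2*D+1 : ℕ) : ℕ∞) := by
        rw [← Set.image_univ, ginj.encard_image, Set.encard_univ, ENat.card_eq_coe_fintype_card,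
          Fintype.card_fin]
      have h2 := Set.encard_le_encard (Set.range_subset_iff.mpr hg2)
      rw [h1] at h2
      have h3 := h2.trans (hS e)
      have h4 : 2*D+1 ≤ D + D := by exact_mod_cast h3
      omega
    intro e' hr he'
    have h5 : c e = hex.choose := by
      rw [hc e]
      exact dif_pos hex
    rw [h5]
    exact hex.choose_spec e' hr he'
  refine ⟨c, ?_⟩
  intro i a b d hab had
  by_contra hbd
  have hne : s(a, b) ≠ s(a, d) := by
    intro hcon
    exact hbd (Sym2.congr_right.mp hcon)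
  have hm1 : s(a, b) ∈ S s(a, d) := ⟨hab.1, a, by simp, by simp⟩
  have hm2 : s(a, d) ∈ S s(a, b) := ⟨had.1, a, by simp, by simp⟩
  rcases trichotomous_of r s(a, b) s(a, d) with h1 | h1 | h1
  · exact key _ _ h1 hm1 (hab.2.trans had.2.symm)
  · exact hne h1
  · exact key _ _ h1 hm2 (had.2.trans hab.2.symm)

/-- auxiliary graph -/
def mixed_col_graph {V : Type u} (H : SimpleGraph V) (B : Finset V) : SimpleGraph V where
  Adj x y := H.Adj x y ∧ x ∉ B ∧ y ∉ B
  symm := ⟨fun x y h => ⟨h.1.symm, h.2.2, h.2.1⟩⟩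
  loopless := ⟨fun x h => H.loopless.irrefl x h.1⟩

theorem mixed_col {V : Type u} (H : SimpleGraph V) (N D : ℕ) (B : Finset V) (hB : B.card ≤ N)
    (h : ∀ v ∉ B, {w | H.Adj v w}.encard ≤ D) :
    ∃ c : Sym2 V → Fin ((N + 1) + (2 * D + 1)),
      ∀ i, IsInter (colorClass H c i) ∨ IsMatch (colorClass H c i) := by
  classical
  obtain ⟨c', hc'⟩ := mixed_col_match (mixed_col_graph H B) D (by
    intro v
    by_cases hv : v ∈ B
    · have : {w | (mixed_col_graph H B).Adj v w} = ∅ := by
        ext w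
        simp only [Set.mem_setOf_eq, Set.mem_empty_iff_false, iff_false]
        intro hh
        exact hh.2.1 hv
      rw [this]
      simp
    · refine (Set.encard_le_encard ?_).trans (h v hv)
      intro w hw
      exact hw.1)
  let idx : ∀ b ∈ B, Fin (N+1) := fun b hb => ⟨(B.equivFin ⟨b, hb⟩ : ℕ), by
    have := (B.equivFin ⟨b, hb⟩).2
    omega⟩
  have hidx : ∀ b hb b' hb', idx b hb = idx b' hb' → b = b' := by
    intro b hb b' hb' heq
    have h0 := congrArg Fin.val heq
    have h1 : ((B.equivFin ⟨b, hb⟩ : Fin B.card) : ℕ) = (B.equivFin ⟨b', hb'⟩ : ℕ) := h0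
    have h2 := B.equivFin.injective (Fin.ext h1)
    exact congrArg Subtype.val h2
  let c : Sym2 V → Fin ((N + 1) + (2 * D + 1)) := fun e =>
    if hh : ∃ b, ∃ _ : b ∈ B, b ∈ e then Fin.castAdd (2*D+1) (idx hh.choose hh.choose_spec.choose)
    else Fin.natAdd (N+1) (c' e)
  have hc1 : ∀ e (j : Fin (N+1)), c e = Fin.castAdd (2*D+1) j → ∃ b, ∃ hb : b ∈ B, b ∈ e ∧ idx b hb = j := by
    intro e j hej
    by_cases hh : ∃ b, ∃ _ : b ∈ B, b ∈ e
    · have h1 : c e = Fin.castAdd (2*D+1) (idx hh.choose hh.choose_spec.choose) := dif_pos hh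
      rw [h1] at hej
      exact ⟨_, _, hh.choose_spec.choose_spec, Fin.castAdd_injective _ _ hej⟩
    · exfalso
      have h1 : c e = Fin.natAdd (N+1) (c' e) := dif_neg hh
      rw [h1] at hej
      have h2 := congrArg Fin.val hej
      simp only [Fin.val_natAdd, Fin.val_castAdd] at h2
      have := j.2
      omega
  have hc2 : ∀ e (j : Fin (2*D+1)), c e = Fin.natAdd (N+1) j → (∀ b ∈ B, b ∉ e) ∧ c' e = j := by
    intro e j hej
    by_cases hh : ∃ b, ∃ _ : b ∈ B, b ∈ e
    · exfalso
      have h1 : c e = Fin.castAdd (2*D+1) (idx hh.choose hh.choose_spec.choose) := dif_pos hh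
      rw [h1] at hej
      have h2 := congrArg Fin.val hej
      simp only [Fin.val_natAdd, Fin.val_castAdd] at h2
      have := (idx hh.choose hh.choose_spec.choose).2
      omega
    · have h1 : c e = Fin.natAdd (N+1) (c' e) := dif_neg hh
      rw [h1] at hej
      exact ⟨fun b hb hbe => hh ⟨b, hb, hbe⟩, Fin.natAdd_injective _ _ hej⟩
  refine ⟨c, fun i => ?_⟩
  induction i using Fin.addCases with
  | left j =>
    left
    intro x y z w hxy hzw
    obtain ⟨b, hb, hbe, hbj⟩ := hc1 _ j hxy.2
    obtain ⟨b', hb', hbe', hbj'⟩ := hc1 _ j hzw.2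
    have hbb : b = b' := hidx b hb b' hb' (hbj.trans hbj'.symm)
    subst hbb
    rcases Sym2.mem_iff.mp hbe with h1 | h1 <;> rcases Sym2.mem_iff.mp hbe' with h2 | h2
    · left; rw [← h1, ← h2]
    · right; left; rw [← h1, ← h2]
    · right; right; left; rw [← h1, ← h2]
    · right; right; right; rw [← h1, ← h2]
  | right j =>
    right
    intro x y z hxy hxz
    obtain ⟨h1, h2⟩ := hc2 _ j hxy.2
    obtain ⟨h3, h4⟩ := hc2 _ j hxz.2
    refine hc' j x y z ⟨⟨hxy.1, fun hb => h1 x hb (by simp), fun hb => h1 y hb (by simp)⟩, h2⟩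
      ⟨⟨hxz.1, fun hb => h3 x hb (by simp), fun hb => h3 z hb (by simp)⟩, h4⟩


end Pool.Agent.H709Exc
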