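import Mathlib
import Pool.Agent.H709Exc.Defs

set_option autoImplicit false

universe u v

namespace Pool.Agent.H709Exc

-- put your auxiliary lemmas here (names starting with the job's theorem name), then the theorem

theorem peel {V : Type u} (H : SimpleGraph V) (k : ℕ)
    (h : ∀ S : Set V, S.Nonempty → ∃ v ∈ S, ∃ T : Finset V, T.card ≤ k ∧
      ∀ w ∈ S, H.Adj v w → w ∈ T) :
    ∃ ρ : V → Ordinal.{u}, Function.Injective ρ ∧
      ∀ v, ∃ T : Finset V, T.card ≤ k ∧ ∀ w, H.Adj v w → ρ v < ρ w → w ∈ T := by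
  classical
  rcases isEmpty_or_nonempty V with hV | hV
  · exact ⟨fun v => isEmptyElim v, fun v => isEmptyElim v, fun v => isEmptyElim v⟩
  have h' : ∀ S : Set V, ∃ v, S.Nonempty → v ∈ S ∧ ∃ T : Finset V, T.card ≤ k ∧
      ∀ w ∈ S, H.Adj v w → w ∈ T := by
    intro S
    by_cases hS : S.Nonempty
    · obtain ⟨v, hv, hT⟩ := h S hS
      exact ⟨v, fun _ => ⟨hv, hT⟩⟩
    · exact ⟨Classical.arbitrary V, fun hh => absurd hh hS⟩
  choose pick hpick using h'
  have hwf : WellFounded ((· < ·) : Ordinal.{u} → Ordinal.{u} → Prop) := wellFounded_lt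
  let G : (a : Ordinal.{u}) → ((b : Ordinal.{u}) → b < a → Option V) → Option V := fun a ih =>
    if ({v | ∀ (b : Ordinal.{u}) (hb : b < a), ih b hb ≠ some v} : Set V).Nonempty then
      some (pick {v | ∀ (b : Ordinal.{u}) (hb : b < a), ih b hb ≠ some v}) else none
  let F : Ordinal.{u} → Option V := hwf.fix G
  have hF : ∀ a, F a = G a (fun b _ => F b) := fun a => hwf.fix_eq G a
  let S : Ordinal.{u} → Set V := fun a => {v | ∀ (b : Ordinal.{u}), b < a → F b ≠ some v}
  have hF1 : ∀ a, (S a).Nonempty → F a = some (pick (S a)) := by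
    intro a ha
    rw [hF a]
    exact if_pos ha
  have hF2 : ∀ a v, F a = some v → (S a).Nonempty ∧ v = pick (S a) := by
    intro a v hv
    by_cases ha : (S a).Nonempty
    · refine ⟨ha, ?_⟩
      rw [hF1 a ha] at hv
      exact (Option.some_injective _ hv).symm
    · exfalso
      rw [hF a] at hv
      have h1 : G a (fun b _ => F b) = none := if_neg ha
      rw [h1] at hv
      exact Option.some_ne_none v hv.symm
  have hinj : ∀ a b v, F a = some v → F b = some v → a = b := by
    have hlt : ∀ a b v, F a = some v → F b = some v → ¬ b < a := by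
      intro a b v hav hbv hba
      obtain ⟨hne, hv⟩ := hF2 a v hav
      have h1 := (hpick (S a) hne).1
      rw [← hv] at h1
      exact h1 b hba hbv
    intro a b v hav hbv
    exact le_antisymm (not_lt.1 (hlt a b v hav hbv)) (not_lt.1 (hlt b a v hbv hav))
  have hsurj : ∀ v, ∃ a, F a = some v := by
    intro v
    by_contra hcon
    push Not at hcon
    have hne : ∀ a, (S a).Nonempty := fun a => ⟨v, fun b _ => hcon b⟩
    have hall : ∀ a, F a = some (pick (S a)) := fun a => hF1 a (hne a)
    apply not_injective_of_ordinal (fun a => pick (S a))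
    intro a b hab
    have hab' : pick (S a) = pick (S b) := hab
    exact hinj a b (pick (S a)) (hall a) (by rw [hab']; exact hall b)
  choose ρ hρ using hsurj
  refine ⟨ρ, ?_, ?_⟩
  · intro v w hvw
    have h1 := hρ v
    rw [hvw, hρ w] at h1
    exact (Option.some_injective _ h1).symm
  · intro v
    obtain ⟨hne, hv⟩ := hF2 (ρ v) v (hρ v)
    obtain ⟨_, T, hT, hTw⟩ := hpick (S (ρ v)) hne
    refine ⟨T, hT, ?_⟩
    intro w hadj hlt
    apply hTw w
    · intro b hb hbw
      have := hinj b (ρ w) w hbw (hρ w)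
      rw [this] at hb
      exact lt_asymm hb hlt
    · rw [← hv]
      exact hadj


end Pool.Agent.H709Exc
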