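import Mathlib
import Pool.Agent.H709Exc.Defs

set_option autoImplicit false

universe u v

namespace Pool.Agent.H709Exc

-- put your auxiliary lemmas here (names starting with the job's theorem name), then the theorem

theorem star_back_g {V : Type u} (ρ : V → Ordinal.{u}) (P : V → V → Prop)
    (hP : ∀ v w, P v w → ρ w < ρ v) (huniq : ∀ v w w', P v w → P v w' → w = w') :
    ∃ g : V → Bool, ∀ v w, P v w → g v = !(g w) := by
  classical
  have wf : WellFounded (fun v w : V => ρ v < ρ w) := InvImage.wf ρ wellFounded_lt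
  let F : (v : V) → ((w : V) → ρ w < ρ v → Bool) → Bool := fun v ih =>
    if h : ∃ w, P v w then !(ih h.choose (hP v _ h.choose_spec)) else false
  refine ⟨wf.fix F, ?_⟩
  intro v w hvw
  rw [wf.fix_eq]
  have h : ∃ w, P v w := ⟨w, hvw⟩
  simp only [F, dif_pos h]
  rw [huniq v _ _ h.choose_spec hvw]

theorem star_back {V : Type u} (H : SimpleGraph V) (ρ : V → Ordinal.{u})
    (hρ : Function.Injective ρ) (hfin : ∀ v, {w | H.Adj v w ∧ ρ w < ρ v}.Finite) :
    ∃ c : Sym2 V → ℕ, ∀ i, IsStarForest (colorClass H c i) := by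
  classical
  have hidx : ∀ v, ∃ f : V → ℕ, Set.InjOn f {w | H.Adj v w ∧ ρ w < ρ v} := fun v =>
    Set.countable_iff_exists_injOn.1 (hfin v).countable
  choose idx hidx using hidx
  have hg : ∀ i : ℕ, ∃ g : V → Bool, ∀ v w, (H.Adj v w ∧ ρ w < ρ v ∧ idx v w = i) → g v = !(g w) := by
    intro i
    apply star_back_g ρ (fun v w => H.Adj v w ∧ ρ w < ρ v ∧ idx v w = i)
    · intro v w h
      exact h.2.1
    · intro v w w' h h'
      exact hidx v ⟨h.1, h.2.1⟩ ⟨h'.1, h'.2.1⟩ (h.2.2.trans h'.2.2.symm)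
  choose g hg using hg
  let col : V → V → ℕ := fun v w => Nat.pair (idx v w) (if g (idx v w) v then 1 else 0)
  let F : V → V → ℕ := fun v w => if ρ w < ρ v then col v w else if ρ v < ρ w then col w v else 0
  have hF : ∀ v w, F v w = F w v := by
    intro v w
    simp only [F]
    rcases lt_trichotomy (ρ v) (ρ w) with h | h | h
    · rw [if_neg (not_lt_of_gt h), if_pos h, if_pos h]
    · have := hρ h
      subst this
      rfl
    · rw [if_pos h, if_neg (not_lt_of_gt h), if_pos h]
  refine ⟨Sym2.lift ⟨F, hF⟩, ?_⟩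
  intro k
  -- children
  have key : ∀ x y, (colorClass H (Sym2.lift ⟨F, hF⟩) k).Adj x y →
      (H.Adj x y ∧ ρ y < ρ x ∧ col x y = k) ∨ (H.Adj y x ∧ ρ x < ρ y ∧ col y x = k) := by
    rintro x y ⟨h1, h2⟩
    rw [Sym2.lift_mk] at h2
    simp only [F] at h2
    rcases lt_trichotomy (ρ x) (ρ y) with h | h | h
    · right
      rw [if_neg (not_lt_of_gt h), if_pos h] at h2
      exact ⟨h1.symm, h, h2⟩
    · exact absurd (hρ h) h1.ne
    · left
      rw [if_pos h] at h2
      exact ⟨h1, h, h2⟩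
  have hcol : ∀ x y, H.Adj x y → ρ y < ρ x → col x y = k →
      idx x y = (Nat.unpair k).1 ∧ (g (Nat.unpair k).1 x = decide ((Nat.unpair k).2 = 1)) ∧
        (g (Nat.unpair k).1 y = !decide ((Nat.unpair k).2 = 1)) := by
    intro x y h1 h2 h3
    have h4 : Nat.unpair k = (idx x y, if g (idx x y) x then 1 else 0) := by
      rw [← h3]
      exact Nat.unpair_pair _ _
    have h5 := hg (idx x y) x y ⟨h1, h2, rfl⟩
    rw [h4]
    refine ⟨rfl, ?_, ?_⟩
    · cases hgx : g (idx x y) x <;> simp [hgx]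
    · cases hgx : g (idx x y) x
      · rw [hgx] at h5
        have : g (idx x y) y = true := by
          cases h6 : g (idx x y) y
          · rw [h6] at h5; simp at h5
          · rfl
        simp [this]
      · rw [hgx] at h5
        have : g (idx x y) y = false := by
          cases h6 : g (idx x y) y
          · rfl
          · rw [h6] at h5; simp at h5
        simp [this]
  have hinj : ∀ x y z, (H.Adj x y ∧ ρ y < ρ x ∧ col x y = k) →
      (H.Adj x z ∧ ρ z < ρ x ∧ col x z = k) → y = z := by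
    rintro x y z ⟨h1, h2, h3⟩ ⟨h4, h5, h6⟩
    exact hidx x ⟨h1, h2⟩ ⟨h4, h5⟩ ((hcol x y h1 h2 h3).1.trans (hcol x z h4 h5 h6).1.symm)
  have hcon : ∀ x y z, (H.Adj x y ∧ ρ y < ρ x ∧ col x y = k) →
      (H.Adj z x ∧ ρ x < ρ z ∧ col z x = k) → False := by
    rintro x y z ⟨h1, h2, h3⟩ ⟨h4, h5, h6⟩
    have e1 := (hcol x y h1 h2 h3).2.1
    have e2 := (hcol z x h4 h5 h6).2.2
    rw [e1] at e2
    revert e2
    cases decide ((Nat.unpair k).2 = 1) <;> simp
  intro x1 x2 x3 x4 h12 h23 h34
  rcases key x2 x3 h23 with h | h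
  · left
    rcases key x1 x2 h12 with h' | h'
    · exact (hcon x2 x3 x1 h h').elim
    · exact hinj x2 x1 x3 h' h
  · right
    rcases key x3 x4 h34 with h' | h'
    · exact hinj x3 x2 x4 h h'
    · exact (hcon x3 x2 x4 h h').elim


end Pool.Agent.H709Exc
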