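import Mathlib
import Pool.Agent.H709Exc.Defs

set_option autoImplicit false

universe u v

namespace Pool.Agent.H709Exc

-- put your auxiliary lemmas here (names starting with the job's theorem name), then the theorem

/-- the graph of the edges with index `i` -/
def star_fwd_E {V : Type u} (H : SimpleGraph V) (ρ : V → Ordinal.{u}) (idx : V → V → ℕ) (i : ℕ) :
    SimpleGraph V where
  Adj x y := H.Adj x y ∧ ((ρ x < ρ y ∧ idx x y = i) ∨ (ρ y < ρ x ∧ idx y x = i))
  symm := ⟨fun x y h => ⟨h.1.symm, h.2.symm⟩⟩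
  loopless := ⟨fun x h => H.loopless.irrefl x h.1⟩

theorem star_fwd_acyclic {V : Type u} (H : SimpleGraph V) (ρ : V → Ordinal.{u})
    (hρ : Function.Injective ρ) (idx : V → V → ℕ)
    (hidx : ∀ v w w', H.Adj v w → ρ v < ρ w → H.Adj v w' → ρ v < ρ w' → idx v w = idx v w' →
      w = w') (i : ℕ) : (star_fwd_E H ρ idx i).IsAcyclic := by
  classical
  intro v c hc
  obtain ⟨u, hu, hmin⟩ := Finset.exists_min_image c.support.toFinset ρ
    ⟨v, by simp⟩
  rw [List.mem_toFinset] at hu
  have hc' := hc.rotate hu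
  set c' := c.rotate u hu with hc'def
  have hne := hc'.snd_ne_penultimate
  have h1 := c'.adj_snd hc'.not_nil
  have h2 := c'.adj_penultimate hc'.not_nil
  have key : ∀ w, (star_fwd_E H ρ idx i).Adj u w → w ∈ c'.support →
      ρ u < ρ w ∧ idx u w = i := by
    intro w hw hws
    rcases hw.2 with h | h
    · exact h
    · exfalso
      have : w ∈ c.support := by
        rw [hc'def, SimpleGraph.Walk.mem_support_rotate_iff] at hws
        exact hws
      have := hmin w (by rw [List.mem_toFinset]; exact this)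
      exact absurd h.1 (not_lt.mpr this)
  have k1 := key _ h1 (c'.getVert_mem_support 1)
  have k2 := key _ h2.symm (c'.getVert_mem_support _)
  exact hne (hidx u _ _ h1.1 k1.1 h2.symm.1 k2.1 (k1.2.trans k2.2.symm))

theorem star_fwd {V : Type u} (H : SimpleGraph V) (k : ℕ) (ρ : V → Ordinal.{u})
    (hρ : Function.Injective ρ)
    (hfin : ∀ v, ∃ T : Finset V, T.card ≤ k ∧ ∀ w, H.Adj v w → ρ v < ρ w → w ∈ T) :
    ∃ c : Sym2 V → Fin (2 * k + 1), ∀ i, IsStarForest (colorClass H c i) := by
  classical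
  choose T hTk hT using hfin
  obtain ⟨idx, hidxlt, hidx⟩ : ∃ idx : V → V → ℕ,
      (∀ v w, H.Adj v w → ρ v < ρ w → idx v w < k) ∧
      (∀ v w w', H.Adj v w → ρ v < ρ w → H.Adj v w' → ρ v < ρ w' → idx v w = idx v w' →
        w = w') := by
    refine ⟨fun v w => if h : w ∈ T v then ((T v).equivFin ⟨w, h⟩).val else 0, ?_, ?_⟩
    · intro v w h1 h2
      have hw := hT v w h1 h2
      simp only [hw, dif_pos]
      exact lt_of_lt_of_le (Fin.is_lt _) (hTk v)
    · intro v w w' h1 h2 h3 h4 h
      have hw := hT v w h1 h2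
      have hw' := hT v w' h3 h4
      simp only [hw, hw', dif_pos] at h
      have := (T v).equivFin.injective (Fin.ext h)
      exact congrArg Subtype.val this
  have hcol : ∀ i, ∃ g : V → Fin 2, ∀ x y, (star_fwd_E H ρ idx i).Adj x y → g x ≠ g y := by
    intro i
    obtain ⟨g⟩ := (star_fwd_acyclic H ρ hρ idx hidx i).colorable_two
    exact ⟨g, fun x y h => g.valid h⟩
  choose g hg using hcol
  let num : V → V → ℕ := fun v w => 2 * idx v w + (g (idx v w) v).val
  let F : V → V → Fin (2 * k + 1) := fun x y =>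
    if ρ x < ρ y then Fin.ofNat (2 * k + 1) (num x y)
    else if ρ y < ρ x then Fin.ofNat (2 * k + 1) (num y x) else 0
  have hF : ∀ x y, F x y = F y x := by
    intro x y
    simp only [F]
    by_cases h1 : ρ x < ρ y
    · rw [if_pos h1, if_neg (not_lt.mpr h1.le), if_pos h1]
    · by_cases h2 : ρ y < ρ x
      · rw [if_neg h1, if_pos h2, if_pos h2]
      · rw [if_neg h1, if_neg h2, if_neg h2, if_neg h1]
  let c : Sym2 V → Fin (2 * k + 1) := Sym2.lift ⟨F, hF⟩
  have hc : ∀ v w, H.Adj v w → ρ v < ρ w → (c s(v, w)).val = 2 * idx v w + (g (idx v w) v).val := by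
    intro v w h1 h2
    have e : c s(v, w) = F v w := rfl
    rw [e]
    simp only [F, if_pos h2, num]
    have hlt := hidxlt v w h1 h2
    have hg2 : (g (idx v w) v).val < 2 := Fin.is_lt _
    rw [Fin.val_ofNat]
    exact Nat.mod_eq_of_lt (by omega)
  refine ⟨c, ?_⟩
  intro j
  -- forward class edges
  have hfw : ∀ v w, (colorClass H c j).Adj v w → ρ v < ρ w →
      idx v w = j.val / 2 ∧ (g (j.val / 2) v).val = j.val % 2 ∧ (g (j.val / 2) w).val ≠ j.val % 2 := by
    intro v w h1 h2
    have h3 := hc v w h1.1 h2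
    rw [h1.2] at h3
    have hg2 : (g (idx v w) v).val < 2 := Fin.is_lt _
    have hi : idx v w = j.val / 2 := by omega
    have hgv : (g (idx v w) v).val = j.val % 2 := by omega
    refine ⟨hi, hi ▸ hgv, ?_⟩
    intro hgw
    refine hg (j.val / 2) v w ⟨h1.1, Or.inl ⟨h2, hi⟩⟩ (Fin.ext ?_)
    rw [hgw, ← hi, hgv]
  have hone : ∀ v w w', (colorClass H c j).Adj v w → (colorClass H c j).Adj v w' →
      ρ v < ρ w → w' = w := by
    intro v w w' h1 h2 h3
    have a1 := hfw v w h1 h3
    rcases lt_trichotomy (ρ v) (ρ w') with h4 | h4 | h4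
    · have a2 := hfw v w' h2 h4
      exact (hidx v w w' h1.1 h3 h2.1 h4 (a1.1.trans a2.1.symm)).symm
    · exfalso
      have := hρ h4
      rw [← this] at h2
      exact H.loopless.irrefl v h2.1
    · exfalso
      have a2 := hfw w' v h2.symm h4
      exact a2.2.2 a1.2.1
  intro a b c' d hab hbc hcd
  rcases lt_trichotomy (ρ b) (ρ c') with h | h | h
  · left
    exact hone b c' a hbc hab.symm h
  · exfalso
    have := hρ h
    rw [← this] at hbc
    exact H.loopless.irrefl b hbc.1
  · right
    exact (hone c' b d hbc.symm hcd h).symm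


end Pool.Agent.H709Exc
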