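import Mathlib
import Pool.Agent.H709Exc.Defs

set_option autoImplicit false

universe u v

namespace Pool.Agent.H709Exc

-- put your auxiliary lemmas here (names starting with the job's theorem name), then the theorem

theorem star_mono_ctr {l : ℕ} (G : SimpleGraph (Fin l)) (hs : IsStarForest G) :
    ∃ ctr : Fin l → Fin l, ∀ u v, G.Adj u v →
      (ctr u = u ∧ ctr v = u) ∨ (ctr v = v ∧ ctr u = v) := by
  classical
  let hub : Fin l → Prop := fun v => ∃ x y, x ≠ y ∧ G.Adj v x ∧ G.Adj v y
  have huniq : ∀ v x y, ¬ hub v → G.Adj v x → G.Adj v y → x = y := by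
    intro v x y h hx hy
    by_contra hne
    exact h ⟨x, y, hne, hx, hy⟩
  have hoth : ∀ u v, hub u → ∃ z, G.Adj u z ∧ z ≠ v := by
    rintro u v ⟨x, y, hxy, hx, hy⟩
    by_cases h : x = v
    · exact ⟨y, hy, fun h' => hxy (h.trans h'.symm)⟩
    · exact ⟨x, hx, h⟩
  have hnot : ∀ u v, G.Adj u v → hub u → ¬ hub v := by
    intro u v huv hu hv
    obtain ⟨z, hz, hzv⟩ := hoth u v hu
    obtain ⟨z', hz', hzu⟩ := hoth v u hv
    rcases hs z u v z' hz.symm huv hz' with h | h
    · exact hzv h
    · exact hzu h.symm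
  let ctr : Fin l → Fin l := fun v => if hub v then v
    else if h : ∃ w, G.Adj v w ∧ hub w then h.choose
    else if h : ∃ w, G.Adj v w ∧ w < v then h.choose else v
  have c1 : ∀ v, hub v → ctr v = v := fun v h => if_pos h
  have c2 : ∀ v w, G.Adj v w → hub w → ctr v = w := by
    intro v w hvw hw
    have hv : ¬ hub v := hnot w v hvw.symm hw
    have hex : ∃ w, G.Adj v w ∧ hub w := ⟨w, hvw, hw⟩
    have e : ctr v = hex.choose := by
      show (if hub v then v
        else if h : ∃ w, G.Adj v w ∧ hub w then h.choose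
        else if h : ∃ w, G.Adj v w ∧ w < v then h.choose else v) = _
      rw [if_neg hv, dif_pos hex]
    rw [e]
    exact huniq v _ _ hv hex.choose_spec.1 hvw
  have c3 : ∀ v w, G.Adj v w → ¬ hub v → ¬ hub w → w < v → ctr v = w := by
    intro v w hvw hv hw hlt
    have hnex : ¬ ∃ w, G.Adj v w ∧ hub w := by
      rintro ⟨w', hw', hh⟩
      rw [huniq v w' w hv hw' hvw] at hh
      exact hw hh
    have hex : ∃ w, G.Adj v w ∧ w < v := ⟨w, hvw, hlt⟩
    have e : ctr v = hex.choose := by
      show (if hub v then v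
        else if h : ∃ w, G.Adj v w ∧ hub w then h.choose
        else if h : ∃ w, G.Adj v w ∧ w < v then h.choose else v) = _
      rw [if_neg hv, dif_neg hnex, dif_pos hex]
    rw [e]
    exact huniq v _ _ hv hex.choose_spec.1 hvw
  have c4 : ∀ v w, G.Adj v w → ¬ hub v → ¬ hub w → v < w → ctr v = v := by
    intro v w hvw hv hw hlt
    have hnex : ¬ ∃ w, G.Adj v w ∧ hub w := by
      rintro ⟨w', hw', hh⟩
      rw [huniq v w' w hv hw' hvw] at hh
      exact hw hh
    have hnex2 : ¬ ∃ w, G.Adj v w ∧ w < v := by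
      rintro ⟨w', hw', hh⟩
      rw [huniq v w' w hv hw' hvw] at hh
      exact absurd hh (not_lt.2 hlt.le)
    show (if hub v then v
        else if h : ∃ w, G.Adj v w ∧ hub w then h.choose
        else if h : ∃ w, G.Adj v w ∧ w < v then h.choose else v) = _
    rw [if_neg hv, dif_neg hnex, dif_neg hnex2]
  refine ⟨ctr, fun u v huv => ?_⟩
  by_cases hu : hub u
  · exact Or.inl ⟨c1 u hu, c2 v u huv.symm hu⟩
  by_cases hv : hub v
  · exact Or.inr ⟨c1 v hv, c2 u v huv hv⟩
  rcases lt_or_gt_of_ne huv.ne with h | h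
  · exact Or.inl ⟨c4 u v huv hu hv h, c3 v u huv.symm hv hu h⟩
  · exact Or.inr ⟨c4 v u huv.symm hv hu h, c3 u v huv hu hv h⟩

theorem star_mono_acyclic {V : Type u} (H : SimpleGraph V) (hs : IsStarForest H) : H.IsAcyclic := by
  intro v p hp
  have h3 := hp.three_le_length
  have a0 := p.adj_getVert_succ (i := 0) (by omega)
  have a1 := p.adj_getVert_succ (i := 1) (by omega)
  have a2 := p.adj_getVert_succ (i := 2) (by omega)
  rcases hs _ _ _ _ a0 a1 a2 with h | h
  · have := hp.getVert_injOn' (show (0 : ℕ) ∈ {i | i ≤ p.length - 1} from Nat.zero_le _)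
      (show (1 + 1 : ℕ) ∈ {i | i ≤ p.length - 1} by show 1 + 1 ≤ p.length - 1; omega) h
    omega
  · have := hp.getVert_injOn (show (0 + 1 : ℕ) ∈ {i | 1 ≤ i ∧ i ≤ p.length} by constructor <;> omega)
      (show (2 + 1 : ℕ) ∈ {i | 1 ≤ i ∧ i ≤ p.length} by constructor <;> omega) h
    omega

theorem star_mono_pigeon {κ : Type u} [Uncountable κ] (f : κ → ℕ) : ∃ i, {b | f b = i}.Infinite := by
  by_contra h
  push Not at h
  have hc : (Set.univ : Set κ).Countable := by
    have e : (Set.univ : Set κ) = ⋃ i, {b | f b = i} := by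
      ext b; simp
    rw [e]
    exact Set.countable_iUnion (fun i => (Set.not_infinite.1 (by simpa using h i)).countable)
  exact (not_countable (α := κ)) (Set.countable_univ_iff.1 hc)

theorem star_mono_unc : Uncountable (ULift.{u} (Set ℕ)) := by
  haveI : Uncountable (Set ℕ) := by
    rw [← not_countable_iff]
    intro h
    obtain ⟨f, hf⟩ := exists_surjective_nat (Set ℕ)
    exact Function.cantor_surjective f hf
  exact Function.Injective.uncountable (f := (ULift.up : Set ℕ → ULift.{u} (Set ℕ))) ULift.up_injective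

/-- the disjoint union of stars -/
def star_mono_H (κ : Type u) : SimpleGraph (κ × Option κ) where
  Adj x y := x.1 = y.1 ∧ ((x.2 = none ∧ y.2 ≠ none) ∨ (x.2 ≠ none ∧ y.2 = none))
  symm := ⟨fun x y h => ⟨h.1.symm, h.2.elim (fun h => Or.inr ⟨h.2, h.1⟩) (fun h => Or.inl ⟨h.2, h.1⟩)⟩⟩
  loopless := ⟨fun x h => h.2.elim (fun h => h.2 h.1) (fun h => h.1 h.2)⟩

theorem star_mono_sf (κ : Type u) : IsStarForest (star_mono_H κ) := by
  intro a b c d h1 h2 h3
  rcases h1.2 with ⟨ha, hb⟩ | ⟨ha, hb⟩
  · left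
    have hc : c.2 = none := by
      rcases h2.2 with h | h
      · exact absurd h.1 hb
      · exact h.2
    exact Prod.ext (h1.1.trans h2.1) (ha.trans hc.symm)
  · right
    have hc : c.2 ≠ none := by
      rcases h2.2 with h | h
      · exact h.2
      · exact absurd hb h.1
    have hd : d.2 = none := by
      rcases h3.2 with h | h
      · exact absurd h.1 hc
      · exact h.2
    exact Prod.ext (h2.1.trans h3.1) (hb.trans hd.symm)

theorem star_mono {l : ℕ} (G₂ : SimpleGraph (Fin l)) (hs : IsStarForest G₂) :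
    ∃ (V : Type u) (H : SimpleGraph V), IsStarForest H ∧ H.IsAcyclic ∧
      ∀ c : Sym2 V → ℕ, ∃ i, G₂.IsContained (colorClass H c i) := by
  classical
  haveI := star_mono_unc.{u}
  let κ : Type u := ULift.{u} (Set ℕ)
  refine ⟨κ × Option κ, star_mono_H κ, star_mono_sf κ, star_mono_acyclic _ (star_mono_sf κ), ?_⟩
  intro c
  have h1 : ∀ a : κ, ∃ i, {b : κ | c s((a, none), (a, some b)) = i}.Infinite := fun a =>
    star_mono_pigeon (fun b : κ => c s((a, none), (a, some b)))
  choose col hcol using h1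
  obtain ⟨i, hi⟩ := star_mono_pigeon col
  refine ⟨i, ?_⟩
  obtain ⟨ctr, hctr⟩ := star_mono_ctr G₂ hs
  let α : Fin l → κ := fun v => (hi.natEmbedding _ v.val : κ)
  have hα : ∀ u v, α u = α v → u = v := by
    intro u v h
    exact Fin.ext ((hi.natEmbedding _).injective (Subtype.ext h))
  have hαc : ∀ v, col (α v) = i := fun v => (hi.natEmbedding _ v.val).2
  let β : κ → Fin l → κ := fun a v => ((hcol a).natEmbedding _ v.val : κ)
  have hβ : ∀ a u v, β a u = β a v → u = v := by
    intro a u v h
    exact Fin.ext (((hcol a).natEmbedding _).injective (Subtype.ext h))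
  have hβc : ∀ a v, c s((a, none), (a, some (β a v))) = col a := fun a v =>
    ((hcol a).natEmbedding _ v.val).2
  let F : Fin l → κ × Option κ := fun v => if ctr v = v then (α v, none) else (α (ctr v), some (β (α (ctr v)) v))
  have F1 : ∀ v, ctr v = v → F v = (α v, none) := fun v h => if_pos h
  have F2 : ∀ v, ctr v ≠ v → F v = (α (ctr v), some (β (α (ctr v)) v)) := fun v h => if_neg h
  have Finj : Function.Injective F := by
    intro u v h
    by_cases hu : ctr u = u
    · by_cases hv : ctr v = v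
      · rw [F1 u hu, F1 v hv] at h
        exact hα u v (congrArg Prod.fst h)
      · rw [F1 u hu, F2 v hv] at h
        exact absurd (congrArg Prod.snd h) (by simp)
    · by_cases hv : ctr v = v
      · rw [F2 u hu, F1 v hv] at h
        exact absurd (congrArg Prod.snd h) (by simp)
      · rw [F2 u hu, F2 v hv] at h
        have e1 : α (ctr u) = α (ctr v) := congrArg Prod.fst h
        have e2 : some (β (α (ctr u)) u) = some (β (α (ctr v)) v) := congrArg Prod.snd h
        rw [← e1] at e2
        exact hβ _ u v (Option.some.inj e2)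
  have key : ∀ u v, G₂.Adj u v → ctr u = u → ctr v = u → (colorClass (star_mono_H κ) c i).Adj (F u) (F v) := by
    intro u v huv hu hv
    have hne : ctr v ≠ v := by
      rw [hv]; exact huv.ne
    rw [F1 u hu, F2 v hne, hv]
    refine ⟨⟨rfl, Or.inl ⟨rfl, by simp⟩⟩, ?_⟩
    rw [hβc, hαc]
  refine ⟨⟨⟨F, ?_⟩, Finj⟩⟩
  intro u v huv
  rcases hctr u v huv with ⟨h, h'⟩ | ⟨h, h'⟩
  · exact key u v huv h h'
  · exact (key v u huv.symm h h').symm


end Pool.Agent.H709Exc
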