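import Mathlib
import Pool.Agent.H709Exc.Defs
import Pool.Agent.H709Exc.J_col_number
import Pool.Agent.H709Exc.J_girth_graph
import Pool.Agent.H709Exc.J_peel
import Pool.Agent.H709Exc.J_core
import Pool.Agent.H709Exc.J_greedy
import Pool.Agent.H709Exc.J_star_back
import Pool.Agent.H709Exc.J_star_fwd
import Pool.Agent.H709Exc.J_star_mono
import Pool.Agent.H709Exc.J_bip_mono
import Pool.Agent.H709Exc.J_free_of_girth
import Pool.Agent.H709Exc.J_bip_common
import Pool.Agent.H709Exc.J_acyclic_of_star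
import Pool.Agent.H709Exc.J_big_split
import Pool.Agent.H709Exc.J_match_col
import Pool.Agent.H709Exc.J_match_cover
import Pool.Agent.H709Exc.J_match_mono
import Pool.Agent.H709Exc.J_cent_mono
import Pool.Agent.H709Exc.J_cent_deg
import Pool.Agent.H709Exc.J_cover_col
import Pool.Agent.H709Exc.J_mixed_col

set_option autoImplicit false

universe u v

namespace Pool.Agent.H709Exc

theorem two_of_bip {k l : ℕ} (G₁ : SimpleGraph (Fin k)) (G₂ : SimpleGraph (Fin l))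
    (h1 : G₁.Colorable 2) (h2 : ¬ IsStarForest G₂) : CountablyColourable.{u} G₁ G₂ := by
  intro V H hH
  obtain ⟨ρ, hρ, hfin⟩ := col_number H k (fun S hS => bip_common G₁ h1 H hH S hS)
  obtain ⟨c, hc⟩ := star_back H ρ hρ hfin
  exact ⟨c, fun i hi => h2 (IsStarForest.of_contained hi (hc i))⟩

theorem one_of_forest {k l : ℕ} (G₁ : SimpleGraph (Fin k)) (G₂ : SimpleGraph (Fin l))
    (h1 : ¬ G₁.IsAcyclic) (h2 : G₂.IsAcyclic) : FinArrow.{u} G₁ G₂ := by
  intro n _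
  obtain ⟨V, _, _, H, hd, hg⟩ := girth_graph.{u} (2 * n * l + 1) k
  refine ⟨V, H, free_of_girth G₁ h1 H hg, fun c => ?_⟩
  obtain ⟨i, S, hS, h⟩ := core H n l hd c
  exact ⟨i, greedy G₂ h2 _ S hS h⟩

theorem not_one_of_forest {k l : ℕ} (G₁ : SimpleGraph (Fin k)) (G₂ : SimpleGraph (Fin l))
    (h1 : G₁.IsAcyclic) (h2 : ¬ IsStarForest G₂) : ¬ FinArrow.{u} G₁ G₂ := by
  intro h
  obtain ⟨V, H, hfree, hH⟩ := h (2 * k + 1) (by omega)
  obtain ⟨ρ, hρ, hρk⟩ := peel H k (by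
    intro S hS
    by_contra hcon
    push Not at hcon
    apply hfree
    apply greedy G₁ h1 H S hS
    intro v hv T hT
    obtain ⟨w, hw, hvw, hwT⟩ := hcon v hv T hT.le
    exact ⟨w, hw, hwT, hvw⟩)
  obtain ⟨c, hc⟩ := star_fwd H k ρ hρ hρk
  obtain ⟨i, hi⟩ := hH c
  exact h2 (IsStarForest.of_contained hi (hc i))

theorem not_two_of_star {k l : ℕ} (G₁ : SimpleGraph (Fin k)) (G₂ : SimpleGraph (Fin l))
    (h1 : ¬ IsStarForest G₁) (h2 : IsStarForest G₂) : ¬ CountablyColourable.{u} G₁ G₂ := by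
  intro h
  obtain ⟨V, H, hs, -, hH⟩ := star_mono.{u} G₂ h2
  obtain ⟨c, hc⟩ := h V H (fun hc => h1 (IsStarForest.of_contained hc hs))
  obtain ⟨i, hi⟩ := hH c
  exact hc i hi

theorem not_two_of_bip {k l : ℕ} (G₁ : SimpleGraph (Fin k)) (G₂ : SimpleGraph (Fin l))
    (h1 : ¬ G₁.Colorable 2) (h2 : G₂.Colorable 2) : ¬ CountablyColourable.{u} G₁ G₂ := by
  intro h
  obtain ⟨V, H, hs, hH⟩ := bip_mono.{u} G₂ h2
  obtain ⟨c, hc⟩ := h V H (fun hc => h1 (by
    obtain ⟨f⟩ := hc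
    exact hs.of_hom f.toHom))
  obtain ⟨i, hi⟩ := hH c
  exact hc i hi

theorem IsMatch.of_contained {V W : Type*} {G : SimpleGraph V} {H : SimpleGraph W}
    (h : G.IsContained H) (hH : IsMatch H) : IsMatch G := by
  obtain ⟨f⟩ := h
  intro a b c h1 h2
  exact f.injective (hH _ _ _ (f.toHom.map_adj h1) (f.toHom.map_adj h2))

theorem IsInter.of_contained {V W : Type*} {G : SimpleGraph V} {H : SimpleGraph W}
    (h : G.IsContained H) (hH : IsInter H) : IsInter G := by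
  obtain ⟨f⟩ := h
  intro a b c d h1 h2
  rcases hH _ _ _ _ (f.toHom.map_adj h1) (f.toHom.map_adj h2) with h | h | h | h
  · exact Or.inl (f.injective h)
  · exact Or.inr (Or.inl (f.injective h))
  · exact Or.inr (Or.inr (Or.inl (f.injective h)))
  · exact Or.inr (Or.inr (Or.inr (f.injective h)))

theorem few_edges {k l : ℕ} (G₁ : SimpleGraph (Fin k)) (G₂ : SimpleGraph (Fin l))
    (hm : IsMatch G₂) (hi : IsInter G₂) : ¬ Exceptional.{u} G₁ G₂ := by
  rintro ⟨h1, h2⟩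
  obtain ⟨V, H, hfree, hH⟩ := h1 1 le_rfl
  obtain ⟨c, hc⟩ := h2 V H hfree
  obtain ⟨i, ⟨f⟩⟩ := hH (fun _ => 0)
  by_cases he : ∃ a b, G₂.Adj a b
  · obtain ⟨a, b, hab⟩ := he
    apply hc (c s(f a, f b))
    refine ⟨⟨⟨f, ?_⟩, f.injective⟩⟩
    intro x y hxy
    refine ⟨(f.toHom.map_adj hxy).1, ?_⟩
    have key : s(x, y) = s(a, b) := by
      rcases hi x y a b hxy hab with h | h | h | h
      · subst h
        rw [hm _ _ _ hxy hab]
      · subst h
        rw [hm _ _ _ hxy hab.symm, Sym2.eq_swap]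
      · subst h
        rw [hm _ _ _ hxy.symm hab, Sym2.eq_swap]
      · subst h
        rw [hm _ _ _ hxy.symm hab.symm]
    have := congrArg (Sym2.map f) key
    simp only [Sym2.map_mk] at this
    exact congrArg c this
  · apply hc 0
    refine ⟨⟨⟨f, ?_⟩, f.injective⟩⟩
    intro x y hxy
    exact absurd ⟨x, y, hxy⟩ he

theorem both_star {k l : ℕ} (G₁ : SimpleGraph (Fin k)) (G₂ : SimpleGraph (Fin l))
    (hs1 : IsStarForest G₁) (hs2 : IsStarForest G₂) : ¬ Exceptional.{u} G₁ G₂ := by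
  intro hE
  by_cases hm2 : IsMatch G₂
  · by_cases hi2 : IsInter G₂
    · exact few_edges G₁ G₂ hm2 hi2 hE
    · by_cases hm1 : IsMatch G₁
      · obtain ⟨V, H, hfree, hH⟩ := hE.1 (2 * k + 1) (by omega)
        obtain ⟨B, hB, hcov⟩ := match_cover G₁ hm1 H hfree
        obtain ⟨c, hc⟩ := cover_col H (2 * k) B hB hcov
        obtain ⟨i, hi⟩ := hH c
        exact hi2 (IsInter.of_contained hi (hc i))
      · obtain ⟨V, H, hmH, hH⟩ := match_mono.{u} G₂ hm2
        obtain ⟨c, hc⟩ := hE.2 V H (fun h => hm1 (IsMatch.of_contained h hmH))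
        obtain ⟨i, hi⟩ := hH c
        exact hc i hi
  · by_cases hi2 : IsInter G₂
    · by_cases hi1 : IsInter G₁
      · obtain ⟨V, H, hfree, hH⟩ := hE.1 (2 * k + 1) (by omega)
        obtain ⟨c, hc⟩ := match_col H k (cent_deg G₁ hs1 hi1 H hfree)
        obtain ⟨i, hi⟩ := hH c
        exact hm2 (IsMatch.of_contained hi (hc i))
      · obtain ⟨V, H, hmH, hH⟩ := cent_mono.{u} G₂ hs2 hi2
        obtain ⟨c, hc⟩ := hE.2 V H (fun h => hi1 (IsInter.of_contained h hmH))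
        obtain ⟨i, hi⟩ := hH c
        exact hc i hi
    · obtain ⟨V, H, hfree, hH⟩ := hE.1 ((k + 1) + (2 * (k * k) + 1)) (by omega)
      obtain ⟨B, hB, hdeg⟩ := big_split G₁ hs1 H hfree
      obtain ⟨c, hc⟩ := mixed_col H k (k * k) B hB hdeg
      obtain ⟨i, hi⟩ := hH c
      rcases hc i with h | h
      · exact hi2 (IsInter.of_contained hi h)
      · exact hm2 (IsMatch.of_contained hi h)

theorem main {k l : ℕ} (G₁ : SimpleGraph (Fin k)) (G₂ : SimpleGraph (Fin l)) :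
    (G₁.IsAcyclic → ¬ Exceptional.{u} G₁ G₂) ∧
    (G₁.Colorable 2 → ¬ G₁.IsAcyclic →
      (Exceptional.{u} G₁ G₂ ↔ FinArrow.{u} G₁ G₂ ∧ ¬ IsStarForest G₂)) ∧
    (G₁.Colorable 2 → ¬ G₁.IsAcyclic → G₂.IsAcyclic →
      (Exceptional.{u} G₁ G₂ ↔ ¬ IsStarForest G₂)) ∧
    (¬ G₁.Colorable 2 → G₂.Colorable 2 → ¬ Exceptional.{u} G₁ G₂) := by
  have A : G₁.Colorable 2 → ¬ G₁.IsAcyclic →
      (Exceptional.{u} G₁ G₂ ↔ FinArrow.{u} G₁ G₂ ∧ ¬ IsStarForest G₂) := by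
    intro h1 h2
    constructor
    · rintro ⟨h3, h4⟩
      exact ⟨h3, fun h5 => not_two_of_star G₁ G₂ (fun h6 => h2 (acyclic_of_star G₁ h6)) h5 h4⟩
    · rintro ⟨h3, h4⟩
      exact ⟨h3, two_of_bip G₁ G₂ h1 h4⟩
  refine ⟨?_, A, ?_, ?_⟩
  · intro h1 h3
    by_cases h4 : IsStarForest G₂
    · by_cases h5 : IsStarForest G₁
      · exact both_star G₁ G₂ h5 h4 h3
      · exact not_two_of_star G₁ G₂ h5 h4 h3.2
    · exact not_one_of_forest G₁ G₂ h1 h4 h3.1
  · intro h1 h2 h3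
    rw [A h1 h2]
    exact ⟨fun h => h.2, fun h => ⟨one_of_forest G₁ G₂ h2 h3, h⟩⟩
  · intro h1 h2 h3
    exact not_two_of_bip G₁ G₂ h1 h2 h3.2

end Pool.Agent.H709Exc
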