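import Mathlib
import Pool.Agent.H709Exc.Defs
import Pool.Agent.H709Exc.J_col_number

set_option autoImplicit false

universe u v

namespace Pool.Agent.H709Exc

open Cardinal Order Set

/-- one step of the closure -/
def tri_step {V : Type u} (H : SimpleGraph V) (X : Set V) : Set V :=
  X ∪ {w | ∃ S : Finset V, (↑S : Set V) ⊆ X ∧ {w | ∀ v ∈ S, H.Adj v w}.Finite ∧
    ∀ v ∈ S, H.Adj v w}

def tri_cl {V : Type u} (H : SimpleGraph V) (X : Set V) : Set V :=
  ⋃ n : ℕ, (tri_step H)^[n] X

theorem tri_card_step {V : Type u} (H : SimpleGraph V)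
    (μ : Cardinal.{u}) (hμ : ℵ₀ ≤ μ) (X : Set V) (hX : #X ≤ μ) :
    #(tri_step H X) ≤ μ := by
  classical
  have hsub : {w | ∃ S : Finset V, (↑S : Set V) ⊆ X ∧ {w | ∀ v ∈ S, H.Adj v w}.Finite ∧
      ∀ v ∈ S, H.Adj v w} ⊆
      ⋃ S : Finset X, {w | {w | ∀ v ∈ S, H.Adj v.1 w}.Finite ∧ ∀ v ∈ S, H.Adj v.1 w} := by
    rintro w ⟨S, hS, hc, hw⟩
    rw [Set.mem_iUnion]
    have hmem : ∀ v : X, v ∈ S.subtype (· ∈ X) ↔ v.1 ∈ S := fun v => by
      rw [Finset.mem_subtype]
    refine ⟨S.subtype (· ∈ X), ?_, ?_⟩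
    · refine hc.subset ?_
      intro y hy v hv
      exact hy ⟨v, hS hv⟩ ((hmem _).2 hv)
    · intro v hv
      exact hw _ ((hmem _).1 hv)
  have hfin : ∀ S : Finset X, #{w | {w | ∀ v ∈ S, H.Adj v.1 w}.Finite ∧ ∀ v ∈ S, H.Adj v.1 w} ≤ ℵ₀ := by
    intro S
    rw [Cardinal.le_aleph0_iff_set_countable]
    by_cases hc : {w | ∀ v ∈ S, H.Adj v.1 w}.Finite
    · refine (hc.subset ?_).countable
      rintro w ⟨-, hw⟩ v hv
      exact hw v hv
    · have : {w | {w | ∀ v ∈ S, H.Adj v.1 w}.Finite ∧ ∀ v ∈ S, H.Adj v.1 w} = ∅ := by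
        ext w
        simp only [Set.mem_setOf_eq, Set.mem_empty_iff_false, iff_false]
        exact fun hh => hc hh.1
      rw [this]
      exact Set.countable_empty
  have hFin : #(Finset X) ≤ μ := by
    rcases finite_or_infinite X with hf | hi
    · exact (Cardinal.lt_aleph0_of_finite (Finset X)).le.trans hμ
    · rw [Cardinal.mk_finset_of_infinite]
      exact hX
  have h2 : #(↥(⋃ S : Finset X, {w | {w | ∀ v ∈ S, H.Adj v.1 w}.Finite ∧
      ∀ v ∈ S, H.Adj v.1 w})) ≤ μ := by
    refine (Cardinal.mk_iUnion_le _).trans ?_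
    refine (mul_le_mul' hFin (ciSup_le' hfin)).trans ?_
    exact (Cardinal.mul_le_max_of_aleph0_le_left hμ).trans (max_le le_rfl hμ)
  unfold tri_step
  refine (Cardinal.mk_union_le _ _).trans ?_
  refine (add_le_add hX ((Cardinal.mk_le_mk_of_subset hsub).trans h2)).trans ?_
  rw [Cardinal.add_eq_self hμ]

theorem tri_card_cl {V : Type u} (H : SimpleGraph V)
    (μ : Cardinal.{u}) (hμ : ℵ₀ ≤ μ) (X : Set V) (hX : #X ≤ μ) :
    #(tri_cl H X) ≤ μ := by
  have hn : ∀ n : ℕ, #((tri_step H)^[n] X) ≤ μ := by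
    intro n
    induction n with
    | zero => exact hX
    | succ n ih =>
      rw [Function.iterate_succ_apply']
      exact tri_card_step H μ hμ _ ih
  unfold tri_cl
  have h1 := Cardinal.mk_iUnion_le_sum_mk_lift (f := fun n : ℕ => (tri_step H)^[n] X)
  have h2 : Cardinal.sum (fun n : ℕ => #((tri_step H)^[n] X)) ≤ μ := by
    refine (Cardinal.sum_le_sum _ (fun _ => μ) hn).trans ?_
    rw [Cardinal.sum_const]
    simp only [Cardinal.lift_id, Cardinal.mk_nat, Cardinal.lift_aleph0]
    exact (Cardinal.mul_le_max_of_aleph0_le_left le_rfl).trans (by simp [hμ])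
  have h3 : #(↥(⋃ n : ℕ, (tri_step H)^[n] X)) ≤
      Cardinal.sum (fun n : ℕ => #((tri_step H)^[n] X)) := by
    simpa using h1
  exact h3.trans h2

theorem tri_sub_cl {V : Type u} (H : SimpleGraph V) (X : Set V) :
    X ⊆ tri_cl H X := fun x hx => Set.mem_iUnion.2 ⟨0, hx⟩

theorem tri_iter_mono {V : Type u} (H : SimpleGraph V) (X : Set V) :
    Monotone (fun n : ℕ => (tri_step H)^[n] X) := by
  refine monotone_nat_of_le_succ (fun n => ?_)
  show (tri_step H)^[n] X ⊆ (tri_step H)^[n+1] X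
  rw [Function.iterate_succ_apply']
  exact Set.subset_union_left

theorem tri_closed {V : Type u} (H : SimpleGraph V) (X : Set V)
    (S : Finset V) (hS : (↑S : Set V) ⊆ tri_cl H X)
    (hc : {w | ∀ v ∈ S, H.Adj v w}.Finite) (w : V)
    (hw : ∀ v ∈ S, H.Adj v w) : w ∈ tri_cl H X := by
  have h1 : ∃ n ∈ (Set.univ : Set ℕ), ∀ x ∈ S, x ∈ (tri_step H)^[n] X := by
    refine col_number_chain Set.univ Set.univ_nonempty _ (tri_iter_mono H X) S ?_
    intro x hx
    obtain ⟨n, hn⟩ := Set.mem_iUnion.1 (hS hx)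
    exact ⟨n, Set.mem_univ _, hn⟩
  obtain ⟨n, -, hn⟩ := h1
  refine Set.mem_iUnion.2 ⟨n + 1, ?_⟩
  rw [Function.iterate_succ_apply']
  exact Or.inr ⟨S, hn, hc, hw⟩

theorem tri_step_mono {V : Type u} (H : SimpleGraph V) :
    Monotone (tri_step H) := by
  intro X Y hXY
  rintro w (hw | ⟨S, hS, hc, hw⟩)
  · exact Or.inl (hXY hw)
  · exact Or.inr ⟨S, hS.trans hXY, hc, hw⟩

theorem tri_cl_mono {V : Type u} (H : SimpleGraph V) :
    Monotone (tri_cl H) := by
  intro X Y hXY
  unfold tri_cl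
  exact Set.iUnion_mono (fun n => (tri_step_mono H).iterate n hXY)

theorem proper_of_col {V : Type u} (H : SimpleGraph V) (ρ : V → Ordinal.{u})
    (hρ : Function.Injective ρ) (hfin : ∀ v, {w | H.Adj v w ∧ ρ w < ρ v}.Finite) :
    ∃ p : V → ℕ, ∀ v w, H.Adj v w → p v ≠ p w := by
  classical
  have wf : WellFounded (fun w v : V => ρ w < ρ v) := InvImage.wf ρ Ordinal.lt_wf
  let F : (v : V) → ((w : V) → ρ w < ρ v → ℕ) → ℕ := fun v ih =>
    ((hfin v).toFinset.attach.sup (fun w => ih w.1 ((hfin v).mem_toFinset.1 w.2).2)) + 1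
  have key : ∀ v w, H.Adj v w → ρ w < ρ v → wf.fix F w < wf.fix F v := by
    intro v w hvw hlt
    rw [wf.fix_eq F v]
    have hmem : w ∈ (hfin v).toFinset := (hfin v).mem_toFinset.2 ⟨hvw, hlt⟩
    have := Finset.le_sup (f := fun w : {x // x ∈ (hfin v).toFinset} => wf.fix F w.1)
      (Finset.mem_attach _ ⟨w, hmem⟩)
    exact Nat.lt_succ_of_le this
  refine ⟨wf.fix F, fun v w hvw => ?_⟩
  rcases lt_trichotomy (ρ v) (ρ w) with h | h | h
  · exact (key w v hvw.symm h).ne
  · exact absurd (hρ h) hvw.ne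
  · exact (key v w hvw h).ne'

/-- `H` has no complete tripartite subgraph with parts of size `m` -/
def TriFree {V : Type u} (H : SimpleGraph V) (m : ℕ) : Prop :=
  ∀ A B C : Finset V, A.card = m → B.card = m → C.card = m →
    (∀ a ∈ A, ∀ b ∈ B, H.Adj a b) → (∀ a ∈ A, ∀ c ∈ C, H.Adj a c) →
    (∀ b ∈ B, ∀ c ∈ C, H.Adj b c) → False

theorem tri_aux {V : Type u} (H : SimpleGraph V) (m : ℕ) (hm : 0 < m) (h : TriFree H m)
    (κ : Cardinal.{u}) :
    ∀ C : Set V, #C = κ → ∃ c : Sym2 V → ℕ, ∀ x ∈ C, ∀ y ∈ C, ∀ z ∈ C,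
      H.Adj x y → H.Adj y z → H.Adj x z → c s(x, y) = c s(y, z) → c s(x, y) = c s(x, z) →
      False := by
  classical
  induction κ using WellFoundedLT.induction with
  | ind κ IH =>
  intro C hC
  by_cases hcount : C.Countable
  · obtain ⟨f, hf⟩ := Set.countable_iff_exists_injOn.1 hcount
    obtain ⟨g, hg⟩ := Countable.exists_injective_nat (Sym2 ℕ)
    refine ⟨fun e => g (Sym2.map f e), ?_⟩
    intro x hx y hy z hz hxy hyz hxz h1 _
    have h3 := hg h1
    simp only [Sym2.map_mk] at h3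
    rcases Sym2.eq_iff.1 h3 with ⟨h4, _⟩ | ⟨h4, _⟩
    · exact hxy.ne (hf hx hy h4)
    · exact hxz.ne (hf hx hz h4)
  · have hκ : ℵ₀ < κ := by
      rw [← hC]
      rw [← Cardinal.le_aleph0_iff_set_countable, not_le] at hcount
      exact hcount
    let A := κ.ord.ToType
    have hA : #A = #C := by rw [hC]; exact Cardinal.mk_ord_toType κ
    obtain ⟨e⟩ := Cardinal.eq.1 hA
    let P : A → Set V := fun a => (fun b => (e b : V)) '' Set.Iic a
    let X : A → Set V := fun a => tri_cl H (P a)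
    have hPmono : Monotone P := fun a b hab => Set.image_mono (Set.Iic_subset_Iic.2 hab)
    have hXmono : Monotone X := fun a b hab => tri_cl_mono H (hPmono hab)
    have hPcard : ∀ a, #(P a) < κ := by
      intro a
      refine lt_of_le_of_lt Cardinal.mk_image_le ?_
      rw [← Set.Iio_insert]
      refine lt_of_le_of_lt Cardinal.mk_insert_le ?_
      exact Cardinal.add_lt_of_lt hκ.le (Cardinal.mk_Iio_toType_ord_lt a)
        (Cardinal.one_lt_aleph0.trans hκ)
    have hXcard : ∀ a, #(X a) < κ := by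
      intro a
      refine lt_of_le_of_lt (tri_card_cl H (max (#(P a)) ℵ₀) (le_max_right _ _) (P a)
        (le_max_left _ _)) ?_
      exact max_lt (hPcard a) hκ
    have hne : ∀ v ∈ C, {a : A | v ∈ X a}.Nonempty := by
      intro v hv
      refine ⟨e.symm ⟨v, hv⟩, ?_⟩
      apply tri_sub_cl
      exact ⟨e.symm ⟨v, hv⟩, Set.mem_Iic.2 le_rfl, by simp⟩
    let μ : V → A := fun v => if hv : v ∈ C then
      (wellFounded_lt (α := A)).min {a : A | v ∈ X a} (hne v hv) else
        (wellFounded_lt (α := A)).min Set.univ (by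
          have : (C : Set V).Nonempty := by
            rw [Set.nonempty_iff_ne_empty]
            rintro rfl
            exact hcount Set.countable_empty
          obtain ⟨c, hc⟩ := this
          exact ⟨e.symm ⟨c, hc⟩, Set.mem_univ _⟩)
    have hμ1 : ∀ v ∈ C, v ∈ X (μ v) := by
      intro v hv
      simp only [μ, dif_pos hv]
      exact (wellFounded_lt (α := A)).min_mem {a : A | v ∈ X a} (hne v hv)
    have hμ2 : ∀ v ∈ C, ∀ a, v ∈ X a → μ v ≤ a := by
      intro v hv a ha
      simp only [μ, dif_pos hv]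
      exact not_lt.1 ((wellFounded_lt (α := A)).not_lt_min {a : A | v ∈ X a} ha)
    have hblock : ∀ i : A, #{v | v ∈ C ∧ μ v = i} < κ := by
      intro i
      refine lt_of_le_of_lt (Cardinal.mk_le_mk_of_subset ?_) (hXcard i)
      rintro v ⟨hv, hv'⟩
      rw [← hv']
      exact hμ1 v hv
    have hrec := fun i : A => IH _ (hblock i) {v | v ∈ C ∧ μ v = i} rfl
    choose c hc using hrec
    -- the lower neighbourhoods
    have hp : ∀ u : V, ∃ p : V → ℕ, u ∈ C → ∀ x y, x ∈ C → y ∈ C → μ x < μ u → μ y < μ u →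
        H.Adj u x → H.Adj u y → H.Adj x y → p x ≠ p y := by
      intro u
      by_cases hu : u ∈ C
      swap
      · exact ⟨fun _ => 0, fun h => absurd h hu⟩
      let N : Set V := {x | x ∈ C ∧ μ x < μ u ∧ H.Adj u x}
      let H' : SimpleGraph V :=
        { Adj := fun x y => H.Adj x y ∧ x ∈ N ∧ y ∈ N
          symm := ⟨fun x y h => ⟨h.1.symm, h.2.2, h.2.1⟩⟩
          loopless := ⟨fun x h => H.loopless.irrefl x h.1⟩ }
      have hfin : ∀ S : Finset V, S.card = m → {w | ∀ v ∈ S, H'.Adj v w}.Finite := by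
        intro S hS
        by_contra hinf
        have hinf' : {w | ∀ v ∈ S, H'.Adj v w}.Infinite := hinf
        obtain ⟨T, hT, hTc⟩ := hinf'.exists_subset_card_eq m
        have hSne : S.Nonempty := by rw [← Finset.card_pos]; omega
        have hTne : T.Nonempty := by rw [← Finset.card_pos]; omega
        obtain ⟨s0, hs0⟩ := hSne
        obtain ⟨t0, ht0⟩ := hTne
        have hSN : ∀ x ∈ S, x ∈ N := fun x hx => (hT ht0 x hx).2.1
        have hTN : ∀ x ∈ T, x ∈ N := fun x hx => (hT hx s0 hs0).2.2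
        have hUN : ∀ x ∈ S ∪ T, x ∈ N := by
          intro x hx
          rcases Finset.mem_union.1 hx with hx | hx
          · exact hSN x hx
          · exact hTN x hx
        obtain ⟨a, ha, haS⟩ := col_number_chain (Set.Iio (μ u)) ⟨μ s0, (hSN s0 hs0).2.1⟩ X hXmono
          (S ∪ T) (fun x hx => ⟨μ x, (hUN x hx).2.1, hμ1 x (hUN x hx).1⟩)
        have hcf : {w | ∀ v ∈ S ∪ T, H.Adj v w}.Finite := by
          by_contra hinf2
          have hinf2' : {w | ∀ v ∈ S ∪ T, H.Adj v w}.Infinite := hinf2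
          obtain ⟨W, hW, hWc⟩ := hinf2'.exists_subset_card_eq m
          refine h S T W hS hTc hWc ?_ ?_ ?_
          · intro a ha b hb
            exact (hT hb a ha).1
          · intro a ha b hb
            exact hW hb a (Finset.mem_union_left _ ha)
          · intro a ha b hb
            exact hW hb a (Finset.mem_union_right _ ha)
        have hcl : u ∈ X a := tri_closed H (P a) (S ∪ T) (fun x hx => haS x hx) hcf u
          (fun x hx => (hUN x hx).2.2.symm)
        exact absurd (hμ2 u hu a hcl) (not_le.2 ha)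
      obtain ⟨ρ, hρ1, hρ2⟩ := col_number H' m hfin
      obtain ⟨p, hp⟩ := proper_of_col H' ρ hρ1 hρ2
      refine ⟨p, fun _ x y hx hy hxu hyu hux huy hxy => ?_⟩
      exact hp x y ⟨hxy, ⟨hx, hxu, hux⟩, ⟨hy, hyu, huy⟩⟩
    choose p hp using hp
    let g : V → V → ℕ := fun x y => if μ x < μ y then 2 * p y x else
      if μ y < μ x then 2 * p x y else 2 * c (μ x) s(x, y) + 1
    have hg : ∀ x y, g x y = g y x := by
      intro x y
      simp only [g]
      rcases lt_trichotomy (μ x) (μ y) with h1 | h1 | h1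
      · rw [if_pos h1, if_neg (not_lt.2 h1.le), if_pos h1]
      · rw [if_neg (by rw [h1]; exact lt_irrefl _), if_neg (by rw [h1]; exact lt_irrefl _),
          if_neg (by rw [h1]; exact lt_irrefl _), if_neg (by rw [h1]; exact lt_irrefl _), h1,
          Sym2.eq_swap]
      · rw [if_neg (not_lt.2 h1.le), if_pos h1, if_pos h1]
    have glt : ∀ x y, μ x < μ y → g x y = 2 * p y x := by
      intro x y h1
      simp only [g]
      rw [if_pos h1]
    have geq : ∀ x y, μ x = μ y → g x y = 2 * c (μ x) s(x, y) + 1 := by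
      intro x y h1
      simp only [g]
      rw [if_neg (by rw [h1]; exact lt_irrefl _), if_neg (by rw [h1]; exact lt_irrefl _)]
    refine ⟨Sym2.lift ⟨g, hg⟩, ?_⟩
    intro x hx y hy z hz hxy hyz hxz h1 h2
    simp only [Sym2.lift_mk] at h1 h2
    -- top vertex lemma
    have top : ∀ u ∈ C, ∀ x ∈ C, ∀ y ∈ C, μ x < μ u → μ y < μ u → H.Adj u x → H.Adj u y →
        H.Adj x y → g x u = g y u → False := by
      intro u hu x hx y hy hxu hyu hux huy hxy hh
      rw [glt x u hxu, glt y u hyu] at hh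
      exact hp u hu x y hx hy hxu hyu hux huy hxy (by omega)
    have par : ∀ x y, μ x = μ y → g x y % 2 = 1 := by
      intro x y h1
      rw [geq x y h1]; omega
    have par2 : ∀ x y, μ x ≠ μ y → g x y % 2 = 0 := by
      intro x y h1
      rcases lt_or_gt_of_ne h1 with h1 | h1
      · rw [glt x y h1]; omega
      · rw [hg x y, glt y x h1]; omega
    by_cases e1 : μ x = μ y
    · have o1 := par x y e1
      have e2 : μ y = μ z := by
        by_contra hne2
        have := par2 y z hne2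
        omega
      have g1 := geq x y e1
      have g2 := geq y z e2
      have g3 := geq x z (e1.trans e2)
      rw [g1, g2] at h1
      rw [g1, g3] at h2
      rw [← e1] at h1
      refine hc (μ x) x ⟨hx, rfl⟩ y ⟨hy, e1.symm⟩ z ⟨hz, (e1.trans e2).symm⟩ hxy hyz hxz
        (by omega) (by omega)
    · have o1 := par2 x y e1
      have e2 : μ y ≠ μ z := by
        intro hh
        have := par y z hh
        omega
      have e3 : μ x ≠ μ z := by
        intro hh
        have := par x z hh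
        omega
      rcases lt_or_gt_of_ne e1 with a1 | a1
      · rcases lt_or_gt_of_ne e2 with a2 | a2
        · -- z is the top
          refine top z hz x hx y hy (a1.trans a2) a2 hxz.symm hyz.symm hxy ?_
          rw [← h1, ← h2]
        · -- y is the top
          refine top y hy x hx z hz a1 a2 hxy.symm hyz hxz ?_
          rw [h1, hg y z]
      · rcases lt_or_gt_of_ne e3 with a3 | a3
        · -- z top
          refine top z hz x hx y hy a3 (a1.trans a3) hxz.symm hyz.symm hxy ?_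
          rw [← h1, ← h2]
        · -- x top
          refine top x hx y hy z hz a1 a3 hxy hxz hyz ?_
          rw [hg y x, h2, hg z x]

/-- every graph without complete tripartite subgraph with parts of size `m` is the union of
countably many triangle-free graphs -/
theorem tri_split {V : Type u} (H : SimpleGraph V) (m : ℕ) (h : TriFree H m) :
    ∃ c : Sym2 V → ℕ, ∀ x y z, H.Adj x y → H.Adj y z → H.Adj x z →
      c s(x, y) = c s(y, z) → c s(x, y) = c s(x, z) → False := by
  rcases Nat.eq_zero_or_pos m with rfl | hm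
  · exact (h ∅ ∅ ∅ rfl rfl rfl (by simp) (by simp) (by simp)).elim
  · obtain ⟨c, hc⟩ := tri_aux H m hm h _ Set.univ rfl
    exact ⟨c, fun x y z => hc x (Set.mem_univ _) y (Set.mem_univ _) z (Set.mem_univ _)⟩

/-- property (2) when `G₁` is 3-colourable and `G₂` contains a triangle -/
theorem two_of_three {k l : ℕ} (G₁ : SimpleGraph (Fin k)) (G₂ : SimpleGraph (Fin l))
    (h1 : G₁.Colorable 3) (h2 : ¬ G₂.CliqueFree 3) : CountablyColourable.{u} G₁ G₂ := by
  classical
  intro V H hH
  have hT : TriFree H k := by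
    intro A B C hA hB hC hAB hAC hBC
    apply hH
    obtain ⟨col⟩ := h1
    let eA := (A.equivFinOfCardEq hA).symm
    let eB := (B.equivFinOfCardEq hB).symm
    let eC := (C.equivFinOfCardEq hC).symm
    have dAB : ∀ a ∈ A, ∀ b ∈ B, a ≠ b := fun a ha b hb => (hAB a ha b hb).ne
    have dAC : ∀ a ∈ A, ∀ b ∈ C, a ≠ b := fun a ha b hb => (hAC a ha b hb).ne
    have dBC : ∀ a ∈ B, ∀ b ∈ C, a ≠ b := fun a ha b hb => (hBC a ha b hb).ne
    let φ : Fin k → V := fun v => if col v = 0 then (eA v).1 else if col v = 1 then (eB v).1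
      else (eC v).1
    have h3 : ∀ v, col v = 0 ∨ col v = 1 ∨ col v = 2 := by
      intro v
      have := (col v).2
      rcases hv : col v with ⟨n, hn⟩
      interval_cases n <;> simp
    have φ0 : ∀ v, col v = 0 → φ v = (eA v).1 := fun v h => by simp only [φ]; rw [if_pos h]
    have φ1 : ∀ v, col v = 1 → φ v = (eB v).1 := fun v h => by
      simp only [φ]; rw [if_neg (by rw [h]; decide), if_pos h]
    have φ2 : ∀ v, col v = 2 → φ v = (eC v).1 := fun v h => by
      simp only [φ]; rw [if_neg (by rw [h]; decide), if_neg (by rw [h]; decide)]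
    refine ⟨⟨⟨φ, ?_⟩, ?_⟩⟩
    · intro x y hxy
      have hne : col x ≠ col y := col.valid hxy
      rcases h3 x with hx | hx | hx <;> rcases h3 y with hy | hy | hy
      · exact absurd (hx.trans hy.symm) hne
      · rw [φ0 x hx, φ1 y hy]; exact hAB _ (eA x).2 _ (eB y).2
      · rw [φ0 x hx, φ2 y hy]; exact hAC _ (eA x).2 _ (eC y).2
      · rw [φ1 x hx, φ0 y hy]; exact (hAB _ (eA y).2 _ (eB x).2).symm
      · exact absurd (hx.trans hy.symm) hne
      · rw [φ1 x hx, φ2 y hy]; exact hBC _ (eB x).2 _ (eC y).2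
      · rw [φ2 x hx, φ0 y hy]; exact (hAC _ (eA y).2 _ (eC x).2).symm
      · rw [φ2 x hx, φ1 y hy]; exact (hBC _ (eB y).2 _ (eC x).2).symm
      · exact absurd (hx.trans hy.symm) hne
    · intro x y hxy
      change φ x = φ y at hxy
      rcases h3 x with hx | hx | hx <;> rcases h3 y with hy | hy | hy
      · rw [φ0 x hx, φ0 y hy] at hxy; exact eA.injective (Subtype.ext hxy)
      · rw [φ0 x hx, φ1 y hy] at hxy; exact absurd hxy (dAB _ (eA x).2 _ (eB y).2)
      · rw [φ0 x hx, φ2 y hy] at hxy; exact absurd hxy (dAC _ (eA x).2 _ (eC y).2)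
      · rw [φ1 x hx, φ0 y hy] at hxy; exact absurd hxy.symm (dAB _ (eA y).2 _ (eB x).2)
      · rw [φ1 x hx, φ1 y hy] at hxy; exact eB.injective (Subtype.ext hxy)
      · rw [φ1 x hx, φ2 y hy] at hxy; exact absurd hxy (dBC _ (eB x).2 _ (eC y).2)
      · rw [φ2 x hx, φ0 y hy] at hxy; exact absurd hxy.symm (dAC _ (eA y).2 _ (eC x).2)
      · rw [φ2 x hx, φ1 y hy] at hxy; exact absurd hxy.symm (dBC _ (eB y).2 _ (eC x).2)
      · rw [φ2 x hx, φ2 y hy] at hxy; exact eC.injective (Subtype.ext hxy)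
  obtain ⟨c, hc⟩ := tri_split H k hT
  refine ⟨c, fun i hi => ?_⟩
  obtain ⟨f⟩ := hi
  unfold SimpleGraph.CliqueFree at h2
  push Not at h2
  obtain ⟨t, ht⟩ := h2
  obtain ⟨a, b, d, hab, had, hbd, -⟩ := SimpleGraph.is3Clique_iff.1 ht
  have e1 := f.toHom.map_adj hab
  have e2 := f.toHom.map_adj hbd
  have e3 := f.toHom.map_adj had
  exact hc _ _ _ e1.1 e2.1 e3.1 (e1.2.trans e2.2.symm) (e1.2.trans e3.2.symm)

end Pool.Agent.H709Exc
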